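import Pool.Agent.Lib.MP_cbe08d_co.Edmonds

/-!
Ring families of vertex sets, covers by arcs, and the two reductions (merging, lifting).
An arc `a` has tail `p a` and head `q a`; it covers `X` when `p a ∈ X` and `q a ∉ X`.
-/

set_option autoImplicit false

namespace Pool.Agent.Lib.MP_cbe08d_co.Lg

variable {V A : Type}

/-- A family closed under intersection and union that contains the two trivial sets. -/
structure IsRing (L : Set (Set V)) : Prop where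
  empty : ∅ ∈ L
  univ : Set.univ ∈ L
  inter : ∀ X ∈ L, ∀ Y ∈ L, X ∩ Y ∈ L
  union : ∀ X ∈ L, ∀ Y ∈ L, X ∪ Y ∈ L

/-- The number of arcs of `R` with tail in `X` and head outside `X`. -/
noncomputable def dg (p q : A → V) (R : Set A) (X : Set V) : ℕ := (R ∩ ent q p X).ncard

/-- `R` contains `k` disjoint covers of the nontrivial members of `L`. -/
def Solv (k : ℕ) (L : Set (Set V)) (p q : A → V) (R : Set A) : Prop :=
  ∃ c : A → ℕ, ∀ i < k, ∀ X ∈ L, X.Nonempty → X ≠ Set.univ →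
    ∃ a ∈ R, c a = i ∧ p a ∈ X ∧ q a ∉ X

/-- `G` covers every nontrivial member of `L` at least `M` times. -/
def Cover (L : Set (Set V)) (p q : A → V) (G : Set A) (M : ℕ) : Prop :=
  ∀ X ∈ L, X.Nonempty → X ≠ Set.univ → M ≤ dg p q G X

/-- No arc of `G` enters a member of `L`. -/
def Legit (L : Set (Set V)) (p q : A → V) (G : Set A) : Prop :=
  ∀ a ∈ G, ∀ X ∈ L, q a ∈ X → p a ∈ X

/-- The complement of `W` contains `z` and lies in every member of `L` that contains `z`. -/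
structure Basin (L : Set (Set V)) (z : V) (W : Set V) : Prop where
  mem : W ∈ L
  not_mem : z ∉ W
  big : ∀ X ∈ L, z ∈ X → X ∪ W = Set.univ

/-- The members of `L` that contain the complement of `X₀` as soon as they contain `ρ`. -/
def mergeL (L : Set (Set V)) (X₀ : Set V) (ρ : V) : Set (Set V) :=
  {X | X ∈ L ∧ (ρ ∈ X → X ∪ X₀ = Set.univ)}

lemma mem_ent {p q : A → V} {X : Set V} {a : A} : a ∈ ent q p X ↔ p a ∈ X ∧ q a ∉ X := Iff.rfl

lemma dg_submod [Finite A] (p q : A → V) (R : Set A) (X Y : Set V) :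
    dg p q R (X ∩ Y) + dg p q R (X ∪ Y) ≤ dg p q R X + dg p q R Y :=
  ent_submod q p R X Y

lemma dg_le [Finite A] {p q q' : A → V} {R R' : Set A} {X X' : Set V}
    (h : ∀ a ∈ R, p a ∈ X → q a ∉ X → a ∈ R' ∧ p a ∈ X' ∧ q' a ∉ X') :
    dg p q R X ≤ dg p q' R' X' :=
  Set.ncard_le_ncard (fun a ha => h a ha.1 ha.2.1 ha.2.2) (Set.toFinite _)

lemma dg_empty (p q : A → V) (R : Set A) : dg p q R ∅ = 0 := by
  simp [dg, ent]

lemma IsRing.mergeL {L : Set (Set V)} (hL : IsRing L) (X₀ : Set V) (ρ : V) :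
    IsRing (mergeL L X₀ ρ) := by
  refine ⟨⟨hL.empty, fun h => absurd h (Set.notMem_empty ρ)⟩, ⟨hL.univ, fun _ => by simp⟩,
    fun X hX Y hY => ⟨hL.inter X hX.1 Y hY.1, fun h => ?_⟩,
    fun X hX Y hY => ⟨hL.union X hX.1 Y hY.1, fun h => ?_⟩⟩
  · rw [Set.inter_union_distrib_right, hX.2 h.1, hY.2 h.2, Set.inter_self]
  · rcases h with h | h
    · rw [Set.union_right_comm, hX.2 h, Set.univ_union]
    · rw [Set.union_assoc, hY.2 h, Set.union_univ]

lemma Solv.mono {k : ℕ} {L : Set (Set V)} {p q : A → V} {R R' : Set A} (h : Solv k L p q R)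
    (hR : R ⊆ R') : Solv k L p q R' := by
  obtain ⟨c, hc⟩ := h
  refine ⟨c, fun i hi X hX h1 h2 => ?_⟩
  obtain ⟨a, ha, h3⟩ := hc i hi X hX h1 h2
  exact ⟨a, hR ha, h3⟩

lemma Cover.mono {L L' : Set (Set V)} {p q : A → V} {G : Set A} {M M' : ℕ}
    (h : Cover L p q G M) (hL : L' ⊆ L) (hM : M' ≤ M) : Cover L' p q G M' :=
  fun X hX h1 h2 => hM.trans (h X (hL hX) h1 h2)

lemma Legit.mono {L L' : Set (Set V)} {p q : A → V} {G G' : Set A}
    (h : Legit L p q G) (hL : L' ⊆ L) (hG : G' ⊆ G) : Legit L' p q G' :=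
  fun a ha X hX => h a (hG ha) X (hL hX)

/-- Merging: if the arcs of `P` outside `X₀` link the complement of `X₀` to `ρ` `k` times, it is
enough to solve the smaller family with the remaining arcs. -/
theorem merge [Finite V] [Finite A] {k : ℕ} {L : Set (Set V)} (hL : IsRing L) {p q : A → V}
    {G P : Set A} (hGP : Disjoint G P) {X₀ : Set V} (hX₀ : X₀ ∈ L) {ρ : V}
    (h : ∀ X ∈ L, X₀ ⊆ X → ρ ∈ X → X ≠ Set.univ → k ≤ dg p q (P ∩ {a | p a ∉ X₀}) X)
    (hS : Solv k (mergeL L X₀ ρ) p q (G ∪ (P ∩ {a | q a ∈ X₀}))) : Solv k L p q (G ∪ P) := by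
  classical
  obtain ⟨c₂, hc₂⟩ := hS
  let F : Set (Set V) := {Y | Yᶜ ∈ L ∧ X₀ ⊆ Yᶜ ∧ ρ ∉ Y ∧ Y.Nonempty}
  obtain ⟨c₁, hc₁⟩ := edmonds_nat p q F (fun Y hY Y' hY' hne => by
      refine ⟨⟨?_, ?_, fun h => hY.2.2.1 h.1, hne⟩, ?_, ?_, ?_, hY.2.2.2.mono Set.subset_union_left⟩
      · rw [Set.compl_inter]
        exact hL.union _ hY.1 _ hY'.1
      · exact fun v hv h => hY.2.1 hv h.1
      · rw [Set.compl_union]
        exact hL.inter _ hY.1 _ hY'.1
      · exact fun v hv h => h.elim (hY.2.1 hv) (hY'.2.1 hv)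
      · exact fun h => h.elim hY.2.2.1 hY'.2.2.1) k (P ∩ {a | p a ∉ X₀})
    (fun Y hY => by
      refine (h Yᶜ hY.1 hY.2.1 hY.2.2.1 (Set.compl_ne_univ.2 hY.2.2.2)).trans
        (Set.ncard_le_ncard (fun a ha => ⟨ha.1, not_not.1 ha.2.2, ha.2.1⟩) (Set.toFinite _)))
  refine ⟨fun a => if a ∈ P ∧ q a ∉ X₀ then c₁ a else c₂ a, fun i hi X hX h1 h2 => ?_⟩
  by_cases hm : X ∈ mergeL L X₀ ρ
  · obtain ⟨a, ha, h3, h4⟩ := hc₂ i hi X hm h1 h2
    have h5 : ¬ (a ∈ P ∧ q a ∉ X₀) := by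
      rcases ha with ha | ha
      · exact fun h => Set.disjoint_left.1 hGP ha h.1
      · exact fun h => h.2 ha.2
    exact ⟨a, ha.imp id fun h => h.1, by simp only [if_neg h5, h3], h4⟩
  · have h3 : ρ ∈ X ∧ X ∪ X₀ ≠ Set.univ := by
      by_contra hc
      exact hm ⟨hX, fun hρ => by_contra fun h => hc ⟨hρ, h⟩⟩
    obtain ⟨a, ⟨ha, h4, h5⟩, h6⟩ := hc₁ i hi (X ∪ X₀)ᶜ ⟨by
        rw [compl_compl]
        exact hL.union _ hX _ hX₀, by
        rw [compl_compl]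
        exact Set.subset_union_right, fun h => h (Or.inl h3.1), Set.nonempty_compl.2 h3.2⟩
    have h7 : a ∈ P ∧ q a ∉ X₀ := ⟨ha.1, fun h => h4 (Or.inr h)⟩
    exact ⟨a, Or.inr ha.1, by simp only [if_pos h7, h6],
      (not_not.1 h5).resolve_right ha.2, fun h => h4 (Or.inl h)⟩

/-- Lifting: a set `T` of arcs may be replaced by one of its arcs `a₀` with a new head `z`. -/
theorem lift_one {k : ℕ} {L : Set (Set V)} {p q q' : A → V} {R T : Set A} {a₀ : A} {z : V}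
    (hT : T ⊆ R) (ha₀ : a₀ ∈ T) (hq : ∀ a, a ≠ a₀ → q' a = q a) (hz : q' a₀ = z)
    (hdom : ∀ X ∈ L, z ∉ X → p a₀ ∈ X → ∃ a ∈ T, p a ∈ X ∧ q a ∉ X)
    (hS : Solv k L p q' (insert a₀ (R \ T))) : Solv k L p q R := by
  classical
  obtain ⟨c, hc⟩ := hS
  refine ⟨fun a => if a ∈ T then c a₀ else c a, fun i hi X hX h1 h2 => ?_⟩
  obtain ⟨a, ha, h3, h4, h5⟩ := hc i hi X hX h1 h2
  rcases ha with rfl | ha
  · obtain ⟨b, hb, h6⟩ := hdom X hX (hz ▸ h5) h4
    exact ⟨b, hT hb, by simp only [if_pos hb, h3], h6⟩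
  · refine ⟨a, ha.1, by simp only [if_neg ha.2, h3], h4, ?_⟩
    rwa [hq a fun h => ha.2 (h ▸ ha₀)] at h5

end Pool.Agent.Lib.MP_cbe08d_co.Lg
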