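import Pool.Agent.Lib.MP_cbe08d_co.Lg.Round

/-!
From ring families to digraphs.
-/

set_option autoImplicit false

namespace Pool.Agent.Lib.MP_cbe08d_co.Lg

variable {V A : Type}

lemma exists_cores [Finite V] {L : Set (Set V)} (hL : IsRing L) (T : Finset V)
    (hT : ∀ X ∈ L, X ≠ Set.univ → ∃ t ∈ T, t ∉ X) :
    ∃ (Z : Finset V) (W : V → Set V), Z.card ≤ T.card ∧ Cores L Z W ∧
      ∀ X ∈ L, X ≠ Set.univ → ∃ t ∈ Z, t ∉ X := by
  classical
  have := Fintype.ofFinite V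
  obtain ⟨Z, hZ, hmin⟩ := Set.exists_min_image
    {Z : Finset V | ∀ X ∈ L, X ≠ Set.univ → ∃ t ∈ Z, t ∉ X} Finset.card (Set.toFinite _) ⟨T, hT⟩
  let W : V → Set V := fun z => {v | ∃ X ∈ (Set.toFinite {X | X ∈ L ∧ z ∉ X}).toFinset, v ∈ X}
  have hsep : ∀ z ∈ Z, ∀ z' ∈ Z, z ≠ z' → z ∈ W z' := fun z hz z' hz' hne => by
    have h1 : ¬ ∀ X ∈ L, X ≠ Set.univ → ∃ t ∈ Z.erase z', t ∉ X := fun h =>
      absurd (hmin _ h) (not_le.2 (Finset.card_erase_lt_of_mem hz'))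
    push Not at h1
    obtain ⟨X, hX, hu, h2⟩ := h1
    obtain ⟨t, ht, h3⟩ := hZ X hX hu
    obtain rfl : t = z' := by_contra fun h => h3 (h2 t (Finset.mem_erase.2 ⟨h, ht⟩))
    exact ⟨X, (Set.Finite.mem_toFinset _).2 ⟨hX, h3⟩, h2 z (Finset.mem_erase.2 ⟨hne, hz⟩)⟩
  have hW : ∀ z, W z ∈ L := fun z =>
    hL.fin_union _ fun X hX => ((Set.Finite.mem_toFinset _).1 hX).1
  refine ⟨Z, W, hmin T hT, ⟨fun z hz => ⟨hW z, fun ⟨X, hX, h⟩ =>
    ((Set.Finite.mem_toFinset _).1 hX).2 h, fun X hX h => by_contra fun hu => ?_⟩, hsep⟩, hZ⟩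
  obtain ⟨t, ht, h1⟩ := hZ _ (hL.union _ hX _ (hW z)) hu
  exact h1 ((eq_or_ne t z).imp (fun e : t = z => e ▸ h) (hsep t ht z hz))

theorem ring_main [Finite V] [Finite A] {k l : ℕ} (hk : 0 < k) {L : Set (Set V)} (hL : IsRing L)
    {p q : A → V} {G : Set A} (hl : Legit L p q G) (T : Finset V) (hc : T.card ≤ 2 ^ l)
    (hT : ∀ X ∈ L, X ≠ Set.univ → ∃ t ∈ T, t ∉ X)
    (hG : Cover L p q G (k * (l + 2) * (2 * l + 3) ^ 2)) : Solv k L p q G := by
  obtain ⟨Z, W, h1, h2, h3⟩ := exists_cores hL T hT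
  have h4 : 2 * (k * (l + 2) * (2 * l + 3) + k * (l + 2)) + l * (k * (l + 2) * (2 * l + 3) +
      k * (l + 2) + k * (l + 2) * (2 * l + 3)) ≤ k * (l + 2) * (2 * l + 3) * (2 * l + 3) := by
    generalize k * (l + 2) = K
    have : 2 * (K * (2 * l + 3) + K) + l * (K * (2 * l + 3) + K + K * (2 * l + 3)) +
        K * (l + 1) = K * (2 * l + 3) * (2 * l + 3) := by ring
    omega
  have h5 := rounds (g := k * (l + 2) * (2 * l + 3)) (c := 2 * l + 3) (K₀ := k * (l + 2)) hk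
    (by positivity) l L q G ∅ Z W hL (Set.disjoint_empty _) hl h2 (h1.trans hc) le_rfl h4
    (hG.mono subset_rfl (h4.trans (le_of_eq (by ring)))) fun X hX hu h => by
      obtain ⟨t, ht, h6⟩ := h3 X hX hu
      exact absurd (h t ht) h6
  rwa [Set.union_empty] at h5

theorem digraph_main [Finite V] [Finite A] {k l : ℕ} (hk : 0 < k) (tail head : A → V) (J : Set A)
    (T : Set V) (hc : T.ncard ≤ 2 ^ l)
    (hT : ∀ S : Set V, (∀ a, head a ∈ S → tail a ∈ S) → S ≠ Set.univ → ∃ t ∈ T, t ∉ S)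
    (hJ : ∀ S : Set V, (∀ a, head a ∈ S → tail a ∈ S) → (∃ a, tail a ∈ S ∧ head a ∉ S) →
      k * (l + 2) * (2 * l + 3) ^ 2 ≤ Set.ncard {a | a ∈ J ∧ tail a ∈ S ∧ head a ∉ S}) :
    ∃ c : A → Fin k, ∀ i : Fin k, ∀ S : Set V, (∀ a, head a ∈ S → tail a ∈ S) →
      (∃ a, tail a ∈ S ∧ head a ∉ S) → ∃ a, a ∈ J ∧ c a = i ∧ tail a ∈ S ∧ head a ∉ S := by
  classical
  let s : Setoid V := Relation.EqvGen.setoid fun x y => ∃ a, tail a = x ∧ head a = y
  let rep : V → V := fun v => (Quotient.mk s v).out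
  have r1 : ∀ a, rep (tail a) = rep (head a) := fun a =>
    congrArg Quotient.out (Quotient.sound (Relation.EqvGen.rel _ _ ⟨a, rfl, rfl⟩))
  have r2 : ∀ v, rep (rep v) = rep v := fun v => congrArg Quotient.out (Quotient.out_eq _)
  have r3 : ∀ S : Set V, (∀ a, tail a ∈ S ↔ head a ∈ S) → ∀ v, rep v ∈ S ↔ v ∈ S := by
    intro S hS v
    have h : Relation.EqvGen (fun x y => ∃ a, tail a = x ∧ head a = y) (rep v) v :=
      Quotient.exact (s := s) (Quotient.out_eq _)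
    generalize rep v = u at h
    induction h with
    | rel x y h =>
      obtain ⟨a, rfl, rfl⟩ := h
      exact hS a
    | refl x => exact Iff.rfl
    | symm x y _ ih => exact ih.symm
    | trans x y z _ _ ih1 ih2 => exact ih1.trans ih2
  let L : Set (Set V) := {S | (∀ a, head a ∈ S → tail a ∈ S) ∧
    ((∀ v, rep v ∈ S) ∨ ∀ v, rep v ∉ S)}
  have hL : IsRing L := by
    refine ⟨⟨fun _ h => h.elim, Or.inr fun _ h => h⟩, ⟨fun _ _ => trivial, Or.inl fun _ => trivial⟩,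
      fun X hX Y hY => ⟨fun a h => ⟨hX.1 a h.1, hY.1 a h.2⟩, ?_⟩,
      fun X hX Y hY => ⟨fun a h => h.imp (hX.1 a) (hY.1 a), ?_⟩⟩
    · rcases hX.2 with h | h
      · exact hY.2.imp (fun h' v => ⟨h v, h' v⟩) fun h' v h'' => h' v h''.2
      · exact Or.inr fun v h' => h v h'.1
    · rcases hX.2 with h | h
      · exact Or.inl fun v => Or.inl (h v)
      · exact hY.2.imp (fun h' v => Or.inr (h' v)) fun h' v h'' => h''.elim (h v) (h' v)
  obtain ⟨c, hc'⟩ := ring_main (l := l) hk hL (p := tail) (q := head) (G := J)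
    (fun a _ X hX => hX.1 a) (Set.toFinite T).toFinset
    (by rwa [← Set.ncard_eq_toFinset_card]) (fun X hX hu => by
      obtain ⟨t, ht, h⟩ := hT X hX.1 hu
      exact ⟨t, (Set.Finite.mem_toFinset _).2 ht, h⟩) fun X hX hne hu => by
      refine hJ X hX.1 (by_contra fun h => ?_)
      have h1 := r3 X fun a => ⟨fun h' => by_contra fun h'' => h ⟨a, h', h''⟩, hX.1 a⟩
      rcases hX.2 with h2 | h2
      · exact hu (Set.eq_univ_of_forall fun v => (h1 v).1 (h2 v))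
      · obtain ⟨v, hv⟩ := hne
        exact h2 v ((h1 v).2 hv)
  refine ⟨fun a => if h : c a < k then ⟨c a, h⟩ else ⟨0, hk⟩, fun i S hS ⟨b, hb, hb'⟩ => ?_⟩
  obtain ⟨a, ha, h1, h2, h3⟩ := hc' i i.2
    {v | (rep v = rep (tail b) ∧ v ∈ S) ∨ (rep v ≠ rep (tail b) ∧ rep (tail b) ∈ S)}
    ⟨fun a h => h.imp (fun h => ⟨(r1 a).trans h.1, hS a h.2⟩) fun h => ⟨r1 a ▸ h.1, h.2⟩, by
      by_cases h : rep (tail b) ∈ S
      · refine Or.inl fun v => ?_
        by_cases h' : rep v = rep (tail b)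
        · exact Or.inl ⟨(r2 v).trans h', h' ▸ h⟩
        · exact Or.inr ⟨(r2 v).symm ▸ h', h⟩
      · refine Or.inr fun v h' => h'.elim (fun h' => h ?_) fun h' => h h'.2
        exact ((r2 v).symm.trans h'.1) ▸ h'.2⟩ ⟨tail b, Or.inl ⟨rfl, hb⟩⟩
    fun e => (e ▸ Set.mem_univ (head b) : head b ∈ {v | (rep v = rep (tail b) ∧ v ∈ S) ∨
      (rep v ≠ rep (tail b) ∧ rep (tail b) ∈ S)}).elim (fun h => hb' h.2)
      fun h => h.1 (r1 b).symm
  have h4 : c a < k := h1 ▸ i.2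
  refine ⟨a, ha, by simp only [dif_pos h4]; exact Fin.ext h1, ?_⟩
  rcases h2 with h2 | h2
  · exact ⟨h2.2, fun h => h3 (Or.inl ⟨(r1 a).symm.trans h2.1, h⟩)⟩
  · exact absurd (Or.inr ⟨r1 a ▸ h2.1, h2.2⟩) h3

end Pool.Agent.Lib.MP_cbe08d_co.Lg
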