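import Pool.Agent.Lib.MP_cbe08d_co.Lg.Defs

/-!
Growing a tree out of a basin so that it can be replaced by a single arc without loss.
-/

set_option autoImplicit false

namespace Pool.Agent.Lib.MP_cbe08d_co.Lg

variable {V A : Type}

lemma dg_insert [Finite A] (p q : A → V) (G T : Set A) (a : A) (X : Set V) :
    dg p q (G \ T) X ≤ dg p q (G \ insert a T) X + 1 := by
  refine le_trans (Set.ncard_le_ncard (t := insert a ((G \ insert a T) ∩ ent q p X)) ?_
    (Set.toFinite _)) (Set.ncard_insert_le _ _)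
  intro b hb
  by_cases hba : b = a
  · exact Or.inl hba
  · exact Or.inr ⟨⟨hb.1.1, fun h => h.elim hba hb.1.2⟩, hb.2⟩

lemma dg_insert' [Finite A] (p q : A → V) (G T : Set A) {a : A} {X : Set V}
    (h : p a ∈ X → q a ∈ X) : dg p q (G \ T) X ≤ dg p q (G \ insert a T) X :=
  dg_le fun _ hb h1 h2 => ⟨⟨hb.1, fun h' => h'.elim (fun e => h2 (e ▸ h (e ▸ h1))) hb.2⟩, h1, h2⟩

open Classical in
/-- The requirement: larger on sets inside the basin and on sets containing its complement. -/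
noncomputable def req (W : Set V) (M M' : ℕ) (X : Set V) : ℕ :=
  if Disjoint X W ∨ W ⊆ X then M' else M

lemma req_pos {W X : Set V} {M M' : ℕ} (h : Disjoint X W ∨ W ⊆ X) : req W M M' X = M' :=
  if_pos h

lemma req_neg {W X : Set V} {M M' : ℕ} (h : ¬ (Disjoint X W ∨ W ⊆ X)) : req W M M' X = M :=
  if_neg h

lemma le_req {W : Set V} {M M' : ℕ} (hM : M < M') (X : Set V) : M ≤ req W M M' X := by
  unfold req
  split_ifs <;> omega

lemma req_super {W : Set V} {M M' : ℕ} (hM : M < M') (X Y : Set V) :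
    req W M M' X + req W M M' Y ≤ req W M M' (X ∩ Y) + req W M M' (X ∪ Y) := by
  have i1 := le_req (W := W) hM (X ∩ Y)
  have i2 := le_req (W := W) hM (X ∪ Y)
  have a1 : Disjoint X W → req W M M' (X ∩ Y) = M' := fun h =>
    req_pos (Or.inl (h.mono_left Set.inter_subset_left))
  have a2 : Disjoint Y W → req W M M' (X ∩ Y) = M' := fun h =>
    req_pos (Or.inl (h.mono_left Set.inter_subset_right))
  have a3 : W ⊆ X → req W M M' (X ∪ Y) = M' := fun h =>
    req_pos (Or.inr (h.trans Set.subset_union_left))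
  have a4 : W ⊆ Y → req W M M' (X ∪ Y) = M' := fun h =>
    req_pos (Or.inr (h.trans Set.subset_union_right))
  by_cases hX : Disjoint X W ∨ W ⊆ X <;> by_cases hY : Disjoint Y W ∨ W ⊆ Y
  · rw [req_pos hX, req_pos hY]
    rcases hX with hX | hX <;> rcases hY with hY | hY
    · rw [a1 hX, req_pos (Or.inl (Set.disjoint_union_left.2 ⟨hX, hY⟩))]
    · rw [a1 hX, a4 hY]
    · rw [a2 hY, a3 hX]
    · rw [a3 hX, req_pos (Or.inr (Set.subset_inter hX hY))]
  · rw [req_pos hX, req_neg hY]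
    rcases hX with hX | hX
    · have := a1 hX
      omega
    · have := a3 hX
      omega
  · rw [req_neg hX, req_pos hY]
    rcases hY with hY | hY
    · have := a2 hY
      omega
    · have := a4 hY
      omega
  · rw [req_neg hX, req_neg hY]
    omega

lemma req_inter {W Z : Set V} {M M' : ℕ} (hM : M < M') (hZ : W ⊆ Z) (X : Set V) :
    req W M M' X ≤ req W M M' (X ∩ Z) := by
  by_cases hX : Disjoint X W ∨ W ⊆ X
  · rw [req_pos hX, req_pos (hX.imp (fun h => h.mono_left Set.inter_subset_left)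
      fun h => Set.subset_inter h hZ)]
  · rw [req_neg hX]
    exact le_req hM _

/-- The invariant of the growth. -/
structure GInv (L : Set (Set V)) (p q : A → V) (z : V) (W : Set V) (G Φ : Set A) (M M' : ℕ)
    (T : Set A) : Prop where
  sub : T ⊆ G \ Φ
  head : ∀ a ∈ T, q a ∉ W
  dom : ∀ a ∈ T, ∀ X ∈ L, z ∉ X → p a ∈ X → ∃ b ∈ T, p b ∈ X ∧ q b ∉ X
  deg : ∀ X ∈ L, X.Nonempty → z ∉ X → req W M M' X ≤ dg p q (G \ T) X + 1
  meet : ∀ X ∈ L, X.Nonempty → z ∉ X → dg p q (G \ T) X < M →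
    ∀ Y ∈ L, Y.Nonempty → z ∉ Y → dg p q (G \ T) Y < M → (X ∩ Y).Nonempty

lemma grow_arc [Finite V] [Finite A] {L : Set (Set V)} (hL : IsRing L) {p q : A → V} {z : V}
    {W : Set V} (hW : W.Nonempty) {G Φ : Set A} (hΦ : ∀ a ∈ Φ, q a = z) {M M' : ℕ}
    (hM : M < M') (hΦM : Φ.ncard < M')
    (hG : ∀ X ∈ L, X.Nonempty → z ∉ X → req W M M' X ≤ dg p q G X) {T : Set A}
    (hT : GInv L p q z W G Φ M M' T) {Z : Set V} (hZ : Z ∈ L) (hzZ : z ∉ Z) (hWZ : W ⊆ Z)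
    (hhead : ∀ b ∈ T, p b ∉ Z) :
    ∃ a ∈ G, a ∉ Φ ∧ p a ∈ Z ∧ q a ∉ Z ∧
      (∀ C ∈ L, z ∉ C → dg p q (G \ T) C < req W M M' C → p a ∈ C → q a ∈ C) ∧
      ∀ X ∈ L, X.Nonempty → z ∉ X → dg p q (G \ T) X < M → p a ∈ X := by
  let D : Set (Set V) := {Q | Q ∈ L ∧ z ∉ Q ∧ (Q ∩ Z).Nonempty ∧
    dg p q (G \ T) Q < req W M M' Q ∧
    ∀ X ∈ L, X.Nonempty → z ∉ X → dg p q (G \ T) X < M → Q ⊆ X}
  by_cases hD : D.Nonempty
  · obtain ⟨Q, ⟨hQL, hzQ, hQZ, hQc, hQd⟩, hQmin⟩ :=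
      Set.exists_min_image D (fun Q => Q.ncard) (Set.toFinite _) hD
    have h1 := hG _ (hL.inter _ hQL _ hZ) hQZ fun h => hzQ h.1
    have h2 := req_inter (M := M) (M' := M') hM hWZ Q
    have h3 : ¬ ∀ a ∈ G, p a ∈ Q ∩ Z → q a ∉ Q ∩ Z → a ∈ G \ T ∧ p a ∈ Q ∧ q a ∉ Q := fun h => by
      have := dg_le h
      omega
    push Not at h3
    obtain ⟨a, haG, hpa, hqa, h4⟩ := h3
    have hqQ : q a ∈ Q := h4 ⟨haG, fun h => hhead a h hpa.2⟩ hpa.1
    refine ⟨a, haG, fun h => hzQ (hΦ a h ▸ hqQ), hpa.2, fun h => hqa ⟨hqQ, h⟩,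
      fun C hC hzC hc hpC => ?_, fun X hX hne hz hd => hQd X hX hne hz hd hpa.1⟩
    by_contra hqC
    have s1 := dg_submod p q (G \ T) C Q
    have s2 := req_super (W := W) hM C Q
    have s3 := hT.deg _ (hL.union _ hC _ hQL) ⟨_, Or.inl hpC⟩ fun h => h.elim hzC hzQ
    have s4 := hQmin (C ∩ Q) ⟨hL.inter _ hC _ hQL, fun h => hzC h.1, ⟨p a, ⟨hpC, hpa.1⟩, hpa.2⟩,
      by omega, fun X hX hne hz hd => Set.inter_subset_right.trans (hQd X hX hne hz hd)⟩
    have s5 : (C ∩ Q).ncard < Q.ncard := Set.ncard_lt_ncard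
      ⟨Set.inter_subset_right, fun h => hqC (h hqQ).1⟩ (Set.toFinite _)
    omega
  · have hno : ∀ X ∈ L, X.Nonempty → z ∉ X → ¬ dg p q (G \ T) X < M := by
      intro X₀ hX₀ hne₀ hz₀ hd₀
      obtain ⟨X, ⟨hX, hne, hz, hd⟩, hmin⟩ := Set.exists_min_image
        {X | X ∈ L ∧ X.Nonempty ∧ z ∉ X ∧ dg p q (G \ T) X < M} (fun X => X.ncard)
        (Set.toFinite _) ⟨X₀, hX₀, hne₀, hz₀, hd₀⟩
      refine hD ⟨X, hX, hz, ?_, hd.trans_le (le_req hM X), fun Y hY hne' hz' hd' => ?_⟩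
      · by_contra h
        have h1 : Disjoint X W := Set.disjoint_left.2 fun v hv hw => h ⟨v, hv, hWZ hw⟩
        have h2 := hT.deg X hX hne hz
        rw [req_pos (Or.inl h1)] at h2
        omega
      · have s1 := dg_submod p q (G \ T) X Y
        have s2 := hT.deg _ (hL.union _ hX _ hY) (hne.mono Set.subset_union_left)
          fun h => h.elim hz hz'
        have s3 := le_req (W := W) hM (X ∪ Y)
        have s4 := hmin (X ∩ Y) ⟨hL.inter _ hX _ hY, hT.meet X hX hne hz hd Y hY hne' hz' hd',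
          fun h => hz h.1, by omega⟩
        have s5 := Set.eq_of_subset_of_ncard_le Set.inter_subset_left s4 (Set.toFinite X)
        exact s5 ▸ Set.inter_subset_right
    have h1 := hG Z hZ (hW.mono hWZ) hzZ
    rw [req_pos (Or.inr hWZ)] at h1
    have h2 : ¬ G ∩ ent q p Z ⊆ Φ := fun h => by
      have := Set.ncard_le_ncard h (Set.toFinite _)
      unfold dg at h1
      omega
    obtain ⟨a, ⟨haG, hpa, hqa⟩, haΦ⟩ := Set.not_subset.1 h2
    exact ⟨a, haG, haΦ, hpa, hqa, fun C hC hzC hc hpC => absurd ⟨C, hC, hzC, ⟨p a, hpC, hpa⟩, hc,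
      fun X hX hne hz hd => absurd hd (hno X hX hne hz)⟩ hD,
      fun X hX hne hz hd => absurd hd (hno X hX hne hz)⟩

lemma grow_step [Finite V] [Finite A] {L : Set (Set V)} (hL : IsRing L) {p q : A → V} {z : V}
    {W : Set V} (hB : Basin L z W) (hW : W.Nonempty) {G Φ : Set A} (hΦ : ∀ a ∈ Φ, q a = z)
    {M M' : ℕ} (hM : M < M') (hΦM : Φ.ncard < M')
    (hG : ∀ X ∈ L, X.Nonempty → z ∉ X → req W M M' X ≤ dg p q G X) {T : Set A}
    (hT : GInv L p q z W G Φ M M' T) (hTW : ∀ a ∈ T, p a ∉ W) :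
    ∃ a, a ∉ T ∧ GInv L p q z W G Φ M M' (insert a T) ∧
      ∀ X ∈ L, X.Nonempty → z ∉ X → dg p q (G \ insert a T) X < M → p a ∈ X := by
  let U : Set (Set V) := {X | X ∈ L ∧ z ∉ X ∧ ∀ b ∈ T, p b ∈ X → q b ∈ X}
  have hWU : W ∈ U := ⟨hB.mem, hB.not_mem, fun b hb h => absurd h (hTW b hb)⟩
  obtain ⟨Z, ⟨hZ, hzZ, hZT⟩, hmax⟩ :=
    Set.exists_max_image U (fun X => X.ncard) (Set.toFinite _) ⟨W, hWU⟩
  have hall : ∀ X ∈ U, X ⊆ Z := fun X hX => by
    have h1 := hmax (Z ∪ X) ⟨hL.union _ hZ _ hX.1, fun h => h.elim hzZ hX.2.1,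
      fun b hb h => h.imp (hZT b hb) (hX.2.2 b hb)⟩
    have h2 := Set.eq_of_subset_of_ncard_le Set.subset_union_left h1 (Set.toFinite _)
    exact h2 ▸ Set.subset_union_right
  have hhead : ∀ b ∈ T, p b ∉ Z := fun b hb h => by
    obtain ⟨b', hb', h1, h2⟩ := hT.dom b hb Z hZ hzZ h
    exact h2 (hZT b' hb' h1)
  obtain ⟨a, haG, haΦ, hpa, hqa, hc, hd⟩ :=
    grow_arc hL hW hΦ hM hΦM hG hT hZ hzZ (hall W hWU) hhead
  have hd' : ∀ X ∈ L, X.Nonempty → z ∉ X → dg p q (G \ insert a T) X < M → p a ∈ X :=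
    fun X hX hne hz h => by
      by_contra hp
      exact hp (hd X hX hne hz ((dg_insert' p q G T fun h' => absurd h' hp).trans_lt h))
  refine ⟨a, fun h => hhead a h hpa, ⟨Set.insert_subset ⟨haG, haΦ⟩ hT.sub, ?_, ?_, ?_, ?_⟩, hd'⟩
  · rintro b (rfl | hb)
    · exact fun h => hqa (hall W hWU h)
    · exact hT.head b hb
  · rintro b (rfl | hb) X hX hz hp
    · by_cases h : X ∈ U
      · exact ⟨b, Or.inl rfl, hp, fun h' => hqa (hall X h h')⟩
      · have h1 : ¬ ∀ c ∈ T, p c ∈ X → q c ∈ X := fun h' => h ⟨hX, hz, h'⟩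
        push Not at h1
        obtain ⟨c, h2, h3⟩ := h1
        exact ⟨c, Or.inr h2, h3⟩
    · obtain ⟨c, h2, h3⟩ := hT.dom b hb X hX hz hp
      exact ⟨c, Or.inr h2, h3⟩
  · intro X hX hne hz
    by_cases h : p a ∈ X → q a ∈ X
    · exact (hT.deg X hX hne hz).trans (Nat.succ_le_succ (dg_insert' p q G T h))
    · exact (not_lt.1 fun h' => h (hc X hX hz h')).trans (dg_insert p q G T a X)
  · exact fun X hX hne hz h Y hY hne' hz' h' => ⟨p a, hd' X hX hne hz h, hd' Y hY hne' hz' h'⟩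

/-- A tree that leaves the basin; the only sets that fall below `M` contain its last vertex. -/
theorem grow [Finite V] [Finite A] {L : Set (Set V)} (hL : IsRing L) {p q : A → V} {z : V}
    {W : Set V} (hB : Basin L z W) (hW : W.Nonempty) {G Φ : Set A} (hΦ : ∀ a ∈ Φ, q a = z)
    {M M' : ℕ} (hM : M < M') (hΦM : Φ.ncard < M')
    (hG : ∀ X ∈ L, X.Nonempty → z ∉ X → req W M M' X ≤ dg p q G X) :
    ∃ T : Set A, ∃ a₀ ∈ T, GInv L p q z W G Φ M M' T ∧ p a₀ ∈ W ∧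
      ∀ X ∈ L, X.Nonempty → z ∉ X → dg p q (G \ T) X < M → p a₀ ∈ X := by
  have h0 : GInv L p q z W G Φ M M' ∅ := by
    refine ⟨Set.empty_subset _, fun a h => h.elim, fun a h => h.elim, fun X hX hne hz => ?_,
      fun X hX hne hz h => ?_⟩
    · rw [Set.sdiff_empty]
      exact (hG X hX hne hz).trans (Nat.le_succ _)
    · rw [Set.sdiff_empty] at h
      exact absurd h (not_lt.2 ((le_req hM X).trans (hG X hX hne hz)))
  obtain ⟨T, ⟨hT, hTW⟩, hmax⟩ := Set.exists_max_image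
    {T | GInv L p q z W G Φ M M' T ∧ ∀ a ∈ T, p a ∉ W} (fun T => T.ncard) (Set.toFinite _)
    ⟨∅, h0, fun a h => h.elim⟩
  obtain ⟨a, haT, h1, h2⟩ := grow_step hL hB hW hΦ hM hΦM hG hT hTW
  refine ⟨insert a T, a, Or.inl rfl, h1, by_contra fun h => ?_, h2⟩
  have h3 := hmax (insert a T) ⟨h1, by
    rintro b (rfl | hb)
    exacts [h, hTW b hb]⟩
  rw [Set.ncard_insert_of_notMem haT (Set.toFinite _)] at h3
  omega

end Pool.Agent.Lib.MP_cbe08d_co.Lg
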