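import Pool.Agent.Lib.MP_cbe08d_co.Lg.Grow

/-!
Many single arcs out of every basin.
-/

set_option autoImplicit false

namespace Pool.Agent.Lib.MP_cbe08d_co.Lg

variable {V A : Type}

/-- Solutions for the new arcs give solutions for the old arcs. -/
def Lifts (k : ℕ) (L : Set (Set V)) (p q' : A → V) (G' : Set A) (q : A → V) (G : Set A) : Prop :=
  ∀ R, Disjoint R G → Solv k L p q' (G' ∪ R) → Solv k L p q (G ∪ R)

lemma Lifts.trans {k : ℕ} {L : Set (Set V)} {p q q' q'' : A → V} {G G' G'' : Set A}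
    (h : Lifts k L p q'' G'' q' G') (h' : Lifts k L p q' G' q G) (hG : G' ⊆ G) :
    Lifts k L p q'' G'' q G :=
  fun R hR hS => h' R hR (h R (hR.mono_right hG) hS)

/-- The outcome of building lanes out of one basin. -/
structure Lane (k : ℕ) (L : Set (Set V)) (p : A → V) (z : V) (W : Set V) (q : A → V) (G : Set A)
    (n : ℕ) (q' : A → V) (G' Φ : Set A) : Prop where
  sub : G' ⊆ G
  subΦ : Φ ⊆ G'
  card : Φ.ncard = n
  hd : ∀ a ∈ Φ, q' a = z ∧ p a ∈ W
  keep : ∀ a ∈ G, q a ∈ W → a ∈ G' ∧ q' a = q a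
  out : ∀ a, a ∉ G → q' a = q a
  legit : Legit L p q' G'
  lift : Lifts k L p q' G' q G

theorem lanes_one [Finite V] [Finite A] (k : ℕ) {L : Set (Set V)} (hL : IsRing L) {p q : A → V}
    {z : V} {W : Set V} (hB : Basin L z W) (hW : W.Nonempty) {G : Set A} (hl : Legit L p q G)
    {M M' : ℕ} (hG : ∀ X ∈ L, X.Nonempty → z ∉ X → req W M M' X ≤ dg p q G X) (n : ℕ)
    (h1 : M + n ≤ M') (h2 : 2 * n ≤ M') :
    ∃ q' G' Φ, Lane k L p z W q G n q' G' Φ ∧
      ∀ X ∈ L, X.Nonempty → z ∉ X → req W M (M' - n) X ≤ dg p q' G' X := by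
  classical
  induction n with
  | zero =>
    exact ⟨q, G, ∅, ⟨subset_rfl, Set.empty_subset _, Set.ncard_empty _, fun a h => h.elim,
      fun a h _ => ⟨h, rfl⟩, fun _ _ => rfl, hl, fun _ _ h => h⟩, hG⟩
  | succ n ih =>
    obtain ⟨q', G', Φ, h, hd⟩ := ih (by omega) (by omega)
    obtain ⟨T, a₀, ha₀, hT, hpa, hdef⟩ := grow hL hB hW (Φ := Φ) (fun a ha => (h.hd a ha).1)
      (M := M) (M' := M' - n) (by omega) (by rw [h.card]; omega) hd
    have hne : ∀ a, a ∉ T → Function.update q' a₀ z a = q' a := fun a ha =>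
      Function.update_of_ne (fun e : a = a₀ => ha (e ▸ ha₀)) _ _
    have hΦT : ∀ a ∈ Φ, a ∉ T := fun a ha hT' => (hT.sub hT').2 ha
    have hTG : T ⊆ G' := fun a ha => (hT.sub ha).1
    refine ⟨Function.update q' a₀ z, insert a₀ (G' \ T), insert a₀ Φ,
      ⟨Set.insert_subset (h.sub (hTG ha₀)) (Set.sdiff_subset.trans h.sub),
        Set.insert_subset_insert fun a ha => ⟨h.subΦ ha, hΦT a ha⟩, ?_, ?_, ?_, ?_, ?_, ?_⟩, ?_⟩
    · rw [Set.ncard_insert_of_notMem (fun h' => hΦT _ h' ha₀) (Set.toFinite _), h.card]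
    · rintro a (rfl | ha)
      · exact ⟨Function.update_self .., hpa⟩
      · rw [hne a (hΦT a ha)]
        exact h.hd a ha
    · intro a ha hq
      obtain ⟨k1, k2⟩ := h.keep a ha hq
      have k3 : a ∉ T := fun h' => hT.head a h' (k2 ▸ hq)
      exact ⟨Or.inr ⟨k1, k3⟩, (hne a k3).trans k2⟩
    · exact fun a ha => (hne a fun h' => ha (h.sub (hTG h'))).trans (h.out a ha)
    · rintro a (rfl | ha) X hX hq
      · rw [Function.update_self] at hq
        have k1 : q' a ∈ X ∪ W := hB.big X hX hq ▸ Set.mem_univ _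
        exact h.legit a (hTG ha₀) X hX (k1.resolve_right (hT.head a ha₀))
      · rw [hne a ha.2] at hq
        exact h.legit a ha.1 X hX hq
    · refine Lifts.trans (fun R hR hS => ?_) h.lift h.sub
      refine lift_one (hTG.trans Set.subset_union_left) ha₀
        (fun a ha => Function.update_of_ne ha _ _) (Function.update_self ..) (hT.dom a₀ ha₀)
        (hS.mono ?_)
      rintro a ((rfl | ha) | ha)
      · exact Or.inl rfl
      · exact Or.inr ⟨Or.inl ha.1, ha.2⟩
      · exact Or.inr ⟨Or.inr ha, fun h' => Set.disjoint_left.1 hR ha (hTG h')⟩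
    · intro X hX hXne hz
      have k1 : dg p q' (G' \ T) X ≤ dg p (Function.update q' a₀ z) (insert a₀ (G' \ T)) X :=
        dg_le fun a ha h3 h4 => ⟨Or.inr ha, h3, by rwa [hne a ha.2]⟩
      have k2 := hT.deg X hX hXne hz
      by_cases hb : Disjoint X W ∨ W ⊆ X
      · rw [req_pos hb] at k2 ⊢
        omega
      · rw [req_neg hb] at k2 ⊢
        by_cases k3 : dg p q' (G' \ T) X < M
        · have k4 : insert a₀ ((G' \ T) ∩ ent q' p X) ⊆
              insert a₀ (G' \ T) ∩ ent (Function.update q' a₀ z) p X := by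
            rintro a (rfl | ha)
            · exact ⟨Or.inl rfl, hdef X hX hXne hz k3, by rwa [Function.update_self]⟩
            · exact ⟨Or.inr ha.1, ha.2.1, by
                rw [hne a ha.1.2]
                exact ha.2.2⟩
          have k5 := Set.ncard_le_ncard k4 (Set.toFinite _)
          rw [Set.ncard_insert_of_notMem (fun h' => h'.1.2 ha₀) (Set.toFinite _)] at k5
          unfold dg at k2 ⊢
          omega
        · omega

/-- Cores with pairwise disjoint basins. -/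
structure Cores (L : Set (Set V)) (Z : Finset V) (W : V → Set V) : Prop where
  basin : ∀ z ∈ Z, Basin L z (W z)
  sep : ∀ z ∈ Z, ∀ z' ∈ Z, z ≠ z' → z ∈ W z'

lemma Cores.mono {L : Set (Set V)} {Z Z' : Finset V} {W : V → Set V} (h : Cores L Z W)
    (hZ : Z' ⊆ Z) : Cores L Z' W :=
  ⟨fun z hz => h.basin z (hZ hz), fun z hz z' hz' => h.sep z (hZ hz) z' (hZ hz')⟩

lemma Cores.disj {L : Set (Set V)} {Z : Finset V} {W : V → Set V} (h : Cores L Z W) {z z' : V}
    (hz : z ∈ Z) (hz' : z' ∈ Z) (hne : z ≠ z') {v : V} (hv : v ∉ W z) : v ∈ W z' := by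
  have h1 : v ∈ W z' ∪ W z :=
    (h.basin z hz).big _ (h.basin z' hz').mem (h.sep z hz z' hz' hne) ▸ Set.mem_univ _
  exact h1.resolve_right hv

theorem lanes [Finite V] [Finite A] (k : ℕ) {L : Set (Set V)} (hL : IsRing L) {p q : A → V}
    {W : V → Set V} {G : Set A} (hl : Legit L p q G) {M M' n : ℕ} (hG : Cover L p q G M')
    (h1 : M + n ≤ M') (h2 : 2 * n ≤ M') (Z : Finset V) (hZ : Cores L Z W)
    (hW : ∀ z ∈ Z, (W z).Nonempty) :
    ∃ (q' : A → V) (G' : Set A) (Φ : V → Set A), G' ⊆ G ∧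
      (∀ z ∈ Z, Φ z ⊆ G' ∧ (Φ z).ncard = n ∧ ∀ a ∈ Φ z, q' a = z ∧ p a ∈ W z) ∧
      (∀ a ∈ G, (∀ z ∈ Z, q a ∈ W z) → a ∈ G' ∧ q' a = q a) ∧ (∀ a, a ∉ G → q' a = q a) ∧
      Legit L p q' G' ∧ Lifts k L p q' G' q G ∧ Cover L p q' G' M := by
  classical
  induction Z using Finset.induction_on with
  | empty =>
    exact ⟨q, G, fun _ => ∅, subset_rfl, fun z h => absurd h (Finset.notMem_empty z),
      fun a h _ => ⟨h, rfl⟩, fun _ _ => rfl, hl, fun _ _ h => h, hG.mono subset_rfl (by omega)⟩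
  | insert z Z hz ih =>
    obtain ⟨q₁, G₁, Φ, s1, s2, s3, s4, s5, s6, s7⟩ := ih (hZ.mono (Finset.subset_insert _ _))
      fun y hy => hW y (Finset.mem_insert_of_mem hy)
    have hzZ := Finset.mem_insert_self z Z
    have hne : ∀ y ∈ Z, z ≠ y := fun y hy e => hz (e ▸ hy)
    have hB := hZ.basin z hzZ
    obtain ⟨q₂, G₂, Ψ, h, hd⟩ := lanes_one k hL hB (hW z hzZ) s5 (M := M) (M' := M')
      (fun X hX hXne hzX => by
        have hu : X ≠ Set.univ := fun e => hzX (e ▸ Set.mem_univ z)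
        by_cases hb : Disjoint X (W z) ∨ W z ⊆ X
        · rw [req_pos hb]
          refine (hG X hX hXne hu).trans (dg_le fun a ha h3 h4 => ?_)
          have k1 : q a ∉ W z := by
            rcases hb with hb | hb
            · exact fun h' => Set.disjoint_left.1 hb h3 (hl a ha _ hB.mem h')
            · exact fun h' => h4 (hb h')
          obtain ⟨k2, k3⟩ := s3 a ha fun y hy =>
            hZ.disj hzZ (Finset.mem_insert_of_mem hy) (hne y hy) k1
          exact ⟨k2, h3, k3 ▸ h4⟩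
        · rw [req_neg hb]
          exact s7 X hX hXne hu) n h1 h2
    refine ⟨q₂, G₂, Function.update Φ z Ψ, h.sub.trans s1, fun y hy => ?_, fun a ha hq => ?_,
      fun a ha => (h.out a fun h' => ha (s1 h')).trans (s4 a ha), h.legit, h.lift.trans s6 s1,
      fun X hX hXne hu => ?_⟩
    · rcases Finset.mem_insert.1 hy with rfl | hy'
      · rw [Function.update_self]
        exact ⟨h.subΦ, h.card, h.hd⟩
      · rw [Function.update_of_ne (hne y hy').symm]
        obtain ⟨k1, k2, k3⟩ := s2 y hy'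
        have k4 : ∀ a ∈ Φ y, a ∈ G₂ ∧ q₂ a = q₁ a := fun a ha => h.keep a (k1 ha)
          ((k3 a ha).1 ▸ hZ.sep y hy z hzZ (hne y hy').symm)
        exact ⟨fun a ha => (k4 a ha).1, k2,
          fun a ha => ⟨(k4 a ha).2.trans (k3 a ha).1, (k3 a ha).2⟩⟩
    · obtain ⟨k1, k2⟩ := s3 a ha fun y hy => hq y (Finset.mem_insert_of_mem hy)
      obtain ⟨k3, k4⟩ := h.keep a k1 (k2 ▸ hq z hzZ)
      exact ⟨k3, k4.trans k2⟩
    · by_cases hzX : z ∈ X
      · refine (s7 X hX hXne hu).trans (dg_le fun a ha h3 h4 => ?_)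
        have k1 : q₁ a ∈ X ∪ W z := hB.big X hX hzX ▸ Set.mem_univ _
        obtain ⟨k2, k3⟩ := h.keep a ha (k1.resolve_left h4)
        exact ⟨k2, h3, k3 ▸ h4⟩
      · refine le_trans ?_ (hd X hX hXne hzX)
        unfold req
        split_ifs <;> omega

end Pool.Agent.Lib.MP_cbe08d_co.Lg
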