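import Pool.Agent.Lib.MP_cbe08d_co.Lg.Defs

/-!
A minimal set with few entering arcs has a vertex that is highly linked to all of it.
-/

set_option autoImplicit false

namespace Pool.Agent.Lib.MP_cbe08d_co.Lg

variable {V A : Type}

lemma disj_mul_le [Finite A] {ι : Type} (E : ι → Set A) (K : ℕ) (s : Finset ι) :
    ∀ S : Set A, (∀ i ∈ s, E i ⊆ S ∧ K ≤ (E i).ncard) →
      (∀ i ∈ s, ∀ j ∈ s, i ≠ j → Disjoint (E i) (E j)) → K * s.card ≤ S.ncard := by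
  classical
  induction s using Finset.induction_on with
  | empty => simp
  | insert i s hi ih =>
    intro S h1 h2
    have m1 := Finset.mem_insert_self i s
    have h3 := ih (S \ E i) (fun j hj => ⟨Set.subset_sdiff.2
      ⟨(h1 j (Finset.mem_insert_of_mem hj)).1,
        h2 j (Finset.mem_insert_of_mem hj) i m1 fun e => hi (e ▸ hj)⟩,
      (h1 j (Finset.mem_insert_of_mem hj)).2⟩)
      fun j hj l hl => h2 j (Finset.mem_insert_of_mem hj) l (Finset.mem_insert_of_mem hl)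
    have h4 := Set.ncard_inter_add_ncard_sdiff_eq_ncard S (E i) (Set.toFinite _)
    rw [Set.inter_eq_self_of_subset_right (h1 i m1).1] at h4
    have h5 := (h1 i m1).2
    rw [Finset.card_insert_of_notMem hi, Nat.mul_succ]
    omega

lemma union_le_mul [Finite A] {ι : Type} (E : ι → Set A) (K : ℕ) (s : Finset ι)
    (h : ∀ i ∈ s, (E i).ncard ≤ K) : {a | ∃ i ∈ s, a ∈ E i}.ncard ≤ K * s.card := by
  classical
  induction s using Finset.induction_on with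
  | empty => simp
  | insert i s hi ih =>
    have h1 := ih fun j hj => h j (Finset.mem_insert_of_mem hj)
    have h2 := h i (Finset.mem_insert_self i s)
    have h3 : {a | ∃ j ∈ insert i s, a ∈ E j} ⊆ E i ∪ {a | ∃ j ∈ s, a ∈ E j} := by
      rintro a ⟨j, hj, ha⟩
      rcases Finset.mem_insert.1 hj with rfl | hj
      · exact Or.inl ha
      · exact Or.inr ⟨j, hj, ha⟩
    have h4 := (Set.ncard_le_ncard h3 (Set.toFinite _)).trans (Set.ncard_union_le _ _)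
    rw [Finset.card_insert_of_notMem hi, Nat.mul_succ]
    omega

lemma IsRing.fin_union {L : Set (Set V)} (hL : IsRing L) (s : Finset (Set V))
    (h : ∀ X ∈ s, X ∈ L) : {v | ∃ X ∈ s, v ∈ X} ∈ L := by
  classical
  induction s using Finset.induction_on with
  | empty => simpa using hL.empty
  | insert X s _ ih =>
    have e : {v | ∃ Y ∈ insert X s, v ∈ Y} = X ∪ {v | ∃ Y ∈ s, v ∈ Y} := by
      ext v
      simp
    rw [e]
    exact hL.union _ (h X (Finset.mem_insert_self _ _)) _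
      (ih fun Y hY => h Y (Finset.mem_insert_of_mem hY))

theorem root [Finite V] [Finite A] {L : Set (Set V)} (hL : IsRing L) {p q : A → V} {P : Set A}
    {X₀ : Set V} (hX₀ : X₀ ∈ L) (hu : X₀ ≠ Set.univ) {K k : ℕ} (hK : 2 * k ≤ K)
    (hs : dg p q P X₀ < K)
    (hmin : ∀ X ∈ L, X₀ ⊂ X → X ≠ Set.univ → K ≤ dg p q P X) :
    ∃ ρ, ρ ∉ X₀ ∧ ∀ X ∈ L, X₀ ⊆ X → ρ ∈ X → X ≠ Set.univ →
      k ≤ dg p q (P ∩ {a | p a ∉ X₀}) X := by
  classical
  by_contra hcon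
  push Not at hcon
  let bad : Set (Set V) := {X | X ∈ L ∧ X₀ ⊆ X ∧ X ≠ Set.univ ∧
    dg p q (P ∩ {a | p a ∉ X₀}) X < k}
  let Y : Finset (Set V) → Set V := fun s => X₀ ∪ {v | ∃ X ∈ s, v ∈ X}
  have hex : ∃ s : Finset (Set V), (∀ X ∈ s, X ∈ bad) ∧ Y s = Set.univ := by
    refine ⟨(Set.toFinite bad).toFinset, fun X hX => (Set.Finite.mem_toFinset _).1 hX,
      Set.eq_univ_of_forall fun v => ?_⟩
    by_cases hv : v ∈ X₀
    · exact Or.inl hv
    · obtain ⟨X, h1, h2, h3, h4, h5⟩ := hcon v hv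
      exact Or.inr ⟨X, (Set.Finite.mem_toFinset _).2 ⟨h1, h2, h4, h5⟩, h3⟩
  obtain ⟨s, ⟨hb, hY⟩, hsm⟩ := Set.exists_min_image
    {s : Finset (Set V) | (∀ X ∈ s, X ∈ bad) ∧ Y s = Set.univ} Finset.card (Set.toFinite _) hex
  have hcov : ∀ v, v ∉ X₀ → ∃ X ∈ s, v ∈ X := fun v hv =>
    (hY ▸ Set.mem_univ v : v ∈ Y s).resolve_left hv
  have h1 : ∀ X ∈ s, K ≤ dg p q P (Y (s.erase X)) := fun X hX => by
    refine hmin _ (hL.union _ hX₀ _ (hL.fin_union _ fun X' h => (hb X' (Finset.mem_of_mem_erase h)).1))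
      ⟨Set.subset_union_left, fun h => (hb X hX).2.2.1 (Set.eq_univ_of_forall fun v => ?_)⟩
      fun h => ?_
    · by_cases hv : v ∈ X₀
      · exact (hb X hX).2.1 hv
      · obtain ⟨X', k1, k2⟩ := hcov v hv
        by_contra k3
        exact hv (h (Or.inr ⟨X', Finset.mem_erase.2 ⟨fun e => k3 (e ▸ k2), k1⟩, k2⟩))
    · have k1 := hsm (s.erase X) ⟨fun X' h' => hb X' (Finset.mem_of_mem_erase h'), h⟩
      have k2 := Finset.card_erase_lt_of_mem hX
      omega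
  have h2 := disj_mul_le (fun X => P ∩ ent q p (Y (s.erase X))) K s
    ((P ∩ ent q p X₀) ∪ {a | ∃ X ∈ s, a ∈ (P ∩ {a | p a ∉ X₀}) ∩ ent q p X})
    (fun X hX => ⟨fun a ha => by
      by_cases h : p a ∈ X₀
      · exact Or.inl ⟨ha.1, h, fun h' => ha.2.2 (Or.inl h')⟩
      · obtain ⟨X', k1, k2⟩ := ha.2.1.resolve_left h
        exact Or.inr ⟨X', Finset.mem_of_mem_erase k1, ⟨ha.1, h⟩, k2,
          fun h' => ha.2.2 (Or.inr ⟨X', k1, h'⟩)⟩, h1 X hX⟩)
    fun X _ X' _ hne => Set.disjoint_left.2 fun a ha hb' => by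
      obtain ⟨X'', k1, k2⟩ := hcov (q a) fun h => ha.2.2 (Or.inl h)
      by_cases e : X'' = X
      · exact hb'.2.2 (Or.inr ⟨X'', Finset.mem_erase.2 ⟨e ▸ hne, k1⟩, k2⟩)
      · exact ha.2.2 (Or.inr ⟨X'', Finset.mem_erase.2 ⟨e, k1⟩, k2⟩)
  have h3 := union_le_mul (fun X => (P ∩ {a | p a ∉ X₀}) ∩ ent q p X) (k - 1) s
    fun X hX => Nat.le_sub_one_of_lt (hb X hX).2.2.2
  have h4 := h2.trans (Set.ncard_union_le _ _)
  obtain ⟨v, hv⟩ := (Set.ne_univ_iff_exists_notMem X₀).1 hu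
  obtain ⟨X, hX, -⟩ := hcov v hv
  obtain ⟨w, hw⟩ := (Set.ne_univ_iff_exists_notMem X).1 (hb X hX).2.2.1
  obtain ⟨X', hX', hw'⟩ := hcov w fun h => hw ((hb X hX).2.1 h)
  have h5 : 1 < s.card := Finset.one_lt_card.2 ⟨X, hX, X', hX', fun e => hw (e ▸ hw')⟩
  have h6 := (hb X hX).2.2.2
  obtain ⟨k, rfl⟩ : ∃ k', k = k' + 1 := ⟨k - 1, by omega⟩
  obtain ⟨n, hn⟩ : ∃ n, s.card = n + 2 := ⟨s.card - 2, by omega⟩
  rw [hn] at h3 h4
  rw [Nat.add_sub_cancel] at h3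
  unfold dg at hs
  have h7 : (2 * (k + 1)) * (n + 1) ≤ K * (n + 1) := Nat.mul_le_mul_right _ hK
  nlinarith

end Pool.Agent.Lib.MP_cbe08d_co.Lg
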