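import Pool.Agent.Lib.MP_cbe08d_co.Lg.Defs

/-!
Removing arcs from stars with a common head while keeping most of the cover.
-/

set_option autoImplicit false

namespace Pool.Agent.Lib.MP_cbe08d_co.Lg

variable {V A : Type}

/-- `X` is a disjoint union of `n` nonempty members of `L`. -/
inductive Part (L : Set (Set V)) : Set V → ℕ → Prop
  | nil : Part L ∅ 0
  | cons {S X : Set V} {n : ℕ} : S ∈ L → S.Nonempty → Disjoint S X → Part L X n →
      Part L (S ∪ X) (n + 1)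

lemma Part.mem {L : Set (Set V)} (hL : IsRing L) {X : Set V} {n : ℕ} (h : Part L X n) : X ∈ L := by
  induction h with
  | nil => exact hL.empty
  | cons hS _ _ _ ih => exact hL.union _ hS _ ih

lemma Part.one {L : Set (Set V)} {X : Set V} (hX : X ∈ L) (hne : X.Nonempty) : Part L X 1 := by
  have := Part.cons hX hne (Set.disjoint_empty X) Part.nil
  rwa [Set.union_empty] at this

lemma Part.append {L : Set (Set V)} {X Y : Set V} {a b : ℕ} (hX : Part L X a) (hY : Part L Y b)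
    (h : Disjoint X Y) : Part L (X ∪ Y) (b + a) := by
  induction hX with
  | nil => rwa [Set.empty_union]
  | cons hS hne hd _ ih =>
    rw [Set.union_assoc]
    exact Part.cons hS hne
      (Set.disjoint_union_right.2 ⟨hd, h.mono_left Set.subset_union_left⟩)
      (ih (h.mono_left Set.subset_union_right))

lemma Part.cover [Finite A] {L : Set (Set V)} (hL : IsRing L) {p q : A → V} {G : Set A}
    (hl : Legit L p q G) {M : ℕ} (hG : Cover L p q G M) {X : Set V} {n : ℕ} (h : Part L X n)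
    (hX : X ≠ Set.univ) : M * n ≤ dg p q G X := by
  induction h with
  | nil => simp
  | @cons S X n hS hne hd hp ih =>
    have h1 := ih fun e => hX (by rw [e, Set.union_univ])
    have h2 := hG S hS hne fun e => hX (by rw [e, Set.univ_union])
    have h3 : (G ∩ ent q p S) ∪ (G ∩ ent q p X) ⊆ G ∩ ent q p (S ∪ X) := by
      rintro a (⟨ha, k1, k2⟩ | ⟨ha, k1, k2⟩)
      · exact ⟨ha, Or.inl k1, fun h' => h'.elim k2 fun h' =>
          Set.disjoint_left.1 hd k1 (hl a ha X (hp.mem hL) h')⟩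
      · exact ⟨ha, Or.inr k1, fun h' => h'.elim
          (fun h' => Set.disjoint_left.1 hd (hl a ha S hS h') k1) k2⟩
    have h4 := Set.ncard_le_ncard h3 (Set.toFinite _)
    rw [Set.ncard_union_eq (Set.disjoint_left.2 fun a ha hb =>
      Set.disjoint_left.1 hd ha.2.1 hb.2.1) (Set.toFinite _) (Set.toFinite _)] at h4
    unfold dg at h1 h2 ⊢
    rw [Nat.mul_succ]
    omega

lemma Part.absorb {L : Set (Set V)} (hL : IsRing L) {X S : Set V} {a : ℕ} (hX : Part L X a)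
    (hS : S ∈ L) : ∃ (S' Y : Set V) (i j : ℕ), S' ∈ L ∧ S ⊆ S' ∧ Part L Y j ∧ Disjoint S' Y ∧
      S' ∪ Y = X ∪ S ∧ Part L (X ∩ S) i ∧ a ≤ i + j := by
  induction hX with
  | nil =>
    exact ⟨S, ∅, 0, 0, hS, subset_rfl, Part.nil, Set.disjoint_empty _, Set.union_comm _ _,
      by rw [Set.empty_inter]; exact Part.nil, le_rfl⟩
  | @cons P X n hP hne hd _ ih =>
    obtain ⟨S', Y, i, j, h1, h2, h3, h4, h5, h6, h7⟩ := ih
    have e : ∀ v, v ∈ S' ∨ v ∈ Y ↔ v ∈ X ∨ v ∈ S := fun v => Set.ext_iff.1 h5 v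
    have hd' := Set.disjoint_left.1 hd
    have h4' := Set.disjoint_left.1 h4
    have hPY : Disjoint P Y := Set.disjoint_left.2 fun v hv hy =>
      ((e v).1 (Or.inr hy)).elim (hd' hv) fun h => h4' (h2 h) hy
    by_cases hPS : (P ∩ S).Nonempty
    · refine ⟨P ∪ S', Y, i + 1, j, hL.union _ hP _ h1, h2.trans Set.subset_union_right, h3,
        Set.disjoint_union_left.2 ⟨hPY, h4⟩, by rw [Set.union_assoc, h5, Set.union_assoc], ?_,
        by omega⟩
      rw [Set.union_inter_distrib_right]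
      exact Part.cons (hL.inter _ hP _ hS) hPS
        (hd.mono Set.inter_subset_left Set.inter_subset_left) h6
    · refine ⟨S', P ∪ Y, i, j + 1, h1, h2, Part.cons hP hne hPY h3,
        Set.disjoint_union_right.2 ⟨Set.disjoint_left.2 fun v hv hp => ?_, h4⟩,
        by rw [Set.union_left_comm, h5, Set.union_assoc], ?_, by omega⟩
      · exact ((e v).1 (Or.inl hv)).elim (hd' hp) fun h => hPS ⟨v, hp, h⟩
      · rwa [Set.union_inter_distrib_right, Set.not_nonempty_iff_eq_empty.1 hPS, Set.empty_union]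

lemma Part.uncross {L : Set (Set V)} (hL : IsRing L) {X Y : Set V} {a b : ℕ} (hX : Part L X a)
    (hY : Part L Y b) : ∃ c e, Part L (X ∩ Y) c ∧ Part L (X ∪ Y) e ∧ a + b ≤ c + e := by
  induction hY with
  | nil =>
    exact ⟨0, a, by rw [Set.inter_empty]; exact Part.nil, by rwa [Set.union_empty], by omega⟩
  | @cons S Y n hS hne hd _ ih =>
    obtain ⟨c, e, h1, h2, h3⟩ := ih
    obtain ⟨S', Y', i, j, k1, k2, k3, k4, k5, k6, k7⟩ := h2.absorb hL hS
    have e1 : (X ∪ Y) ∩ S = X ∩ S := by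
      rw [Set.union_inter_distrib_right, hd.symm.inter_eq, Set.union_empty]
    refine ⟨c + i, j + 1, ?_, ?_, by omega⟩
    · rw [Set.inter_union_distrib_left]
      exact (e1 ▸ k6).append h1 (hd.mono Set.inter_subset_right Set.inter_subset_right)
    · rw [Set.union_comm S, ← Set.union_assoc, ← k5]
      exact Part.cons k1 (hne.mono k2) k4 k3

lemma mul_card_le [Finite A] (q : A → V) (g : ℕ) (s : Finset V) :
    ∀ S : Set A, (∀ z ∈ s, g ≤ (S ∩ {a | q a = z}).ncard) → g * s.card ≤ S.ncard := by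
  classical
  induction s using Finset.induction_on with
  | empty => simp
  | insert z s hz ih =>
    intro S hS
    have h1 := ih (S \ {a | q a = z}) fun y hy =>
      (hS y (Finset.mem_insert_of_mem hy)).trans (Set.ncard_le_ncard (fun a ha =>
        ⟨⟨ha.1, fun h => hz (((h : q a = z).symm.trans ha.2) ▸ hy)⟩, ha.2⟩) (Set.toFinite _))
    have h2 := hS z (Finset.mem_insert_self _ _)
    have h3 := Set.ncard_inter_add_ncard_sdiff_eq_ncard S {a | q a = z} (Set.toFinite _)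
    rw [Finset.card_insert_of_notMem hz, Nat.mul_succ]
    omega

/-- The stars all of whose candidates cover `X`. -/
def forced (p : A → V) (Z : Finset V) (C : V → Set A) (X : Set V) : Set V :=
  {z | z ∈ Z ∧ z ∉ X ∧ ∀ a ∈ C z, p a ∈ X}

/-- The invariant of the selection. -/
def SInv (L : Set (Set V)) (p q : A → V) (G : Set A) (M₁ : ℕ) (Z : Finset V) (C : V → Set A) :
    Prop :=
  ∀ X n, Part L X n → X ≠ Set.univ → (forced p Z C X).ncard + M₁ * n ≤ dg p q G X

lemma select_tight [Finite V] {L : Set (Set V)} {p q : A → V} {G : Set A} {M₁ : ℕ} {Z : Finset V}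
    {C : V → Set A} (hC : SInv L p q G M₁ Z C) {z : V} {D : Set A} [DecidableEq V]
    (hD : ¬ SInv L p q G M₁ Z (Function.update C z D)) :
    ∃ X n, Part L X n ∧ dg p q G X ≤ (forced p Z C X).ncard + M₁ * n ∧ z ∉ X ∧
      (∀ a ∈ D, p a ∈ X) ∧ z ∉ forced p Z C X := by
  unfold SInv at hD
  push Not at hD
  obtain ⟨X, n, hX, hu, h⟩ := hD
  have h1 := hC X n hX hu
  have h2 : ∀ y, y ≠ z → y ∈ forced p Z (Function.update C z D) X → y ∈ forced p Z C X :=
    fun y hy h' => ⟨h'.1, h'.2.1, by simpa only [Function.update_of_ne hy] using h'.2.2⟩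
  have h3 : ¬ forced p Z (Function.update C z D) X ⊆ forced p Z C X := fun h' => by
    have := Set.ncard_le_ncard h' (Set.toFinite _)
    omega
  obtain ⟨y, h4, h5⟩ := Set.not_subset.1 h3
  obtain rfl : y = z := by_contra fun h' => h5 (h2 y h' h4)
  have h6 : forced p Z (Function.update C y D) X ⊆ insert y (forced p Z C X) := fun x hx =>
    (eq_or_ne x y).imp id fun h' => h2 x h' hx
  have h7 := (Set.ncard_le_ncard h6 (Set.toFinite _)).trans (Set.ncard_insert_le _ _)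
  exact ⟨X, n, hX, by omega, h4.2.1, by simpa only [Function.update_self] using h4.2.2, h5⟩

lemma select_init [Finite V] [Finite A] {L : Set (Set V)} (hL : IsRing L) {p q : A → V}
    {G : Set A} (hl : Legit L p q G) {M M₁ g : ℕ} (hG : Cover L p q G M) (hg : 0 < g)
    (hM : g * M₁ + M ≤ g * M) (Z : Finset V) (Φ : V → Set A)
    (hΦ : ∀ z ∈ Z, Φ z ⊆ G ∧ g ≤ (Φ z).ncard ∧ ∀ a ∈ Φ z, q a = z) : SInv L p q G M₁ Z Φ := by
  intro X n hX hu
  have h1 := hX.cover hL hl hG hu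
  have h2 := mul_card_le q g (Set.toFinite (forced p Z Φ X)).toFinset (G ∩ ent q p X)
    fun z hz => by
      obtain ⟨k1, k2, k3⟩ := (Set.Finite.mem_toFinset _).1 hz
      obtain ⟨k4, k5, k6⟩ := hΦ z k1
      exact k5.trans (Set.ncard_le_ncard
        (fun a ha => ⟨⟨k4 ha, k3 a ha, (k6 a ha).symm ▸ k2⟩, k6 a ha⟩) (Set.toFinite _))
  rw [← Set.ncard_eq_toFinset_card] at h2
  change _ ≤ dg p q G X at h2
  obtain ⟨g, rfl⟩ : ∃ g', g = g' + 1 := ⟨g - 1, by omega⟩
  refine Nat.le_of_mul_le_mul_left ?_ hg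
  have h3 : (g + 1) * M₁ ≤ g * M := by nlinarith
  have h4 : (g + 1) * M₁ * n ≤ g * M * n := Nat.mul_le_mul_right n h3
  have h5 : g * (M * n) ≤ g * dg p q G X := Nat.mul_le_mul_left g h1
  nlinarith

theorem select [Finite V] [Finite A] {L : Set (Set V)} (hL : IsRing L) {p q : A → V} {G : Set A}
    (hl : Legit L p q G) {M M₁ g : ℕ} (hG : Cover L p q G M) (hg : 0 < g)
    (hM : g * M₁ + M ≤ g * M) (Z : Finset V) (Φ : V → Set A)
    (hΦ : ∀ z ∈ Z, Φ z ⊆ G ∧ g ≤ (Φ z).ncard ∧ ∀ a ∈ Φ z, q a = z) :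
    ∃ C : V → Set A, (∀ z ∈ Z, C z ⊆ Φ z ∧ (C z).ncard = 1) ∧
      Cover L p q (G \ {a | ∃ z ∈ Z, a ∈ C z}) M₁ := by
  classical
  obtain ⟨C, ⟨hC, hI⟩, hmin⟩ := Set.exists_min_image
    {C : V → Set A | (∀ z ∈ Z, C z ⊆ Φ z ∧ (C z).Nonempty) ∧ SInv L p q G M₁ Z C}
    (fun C => ∑ z ∈ Z, (C z).ncard) (Set.toFinite _)
    ⟨Φ, fun z hz => ⟨subset_rfl, (Set.ncard_pos (Set.toFinite _)).1 (hg.trans_le (hΦ z hz).2.1)⟩,
      select_init hL hl hG hg hM Z Φ hΦ⟩
  have hleg : ∀ z ∈ Z, ∀ X ∈ L, z ∈ X → ∀ a ∈ C z, p a ∈ X := fun z hz X hX h a ha =>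
    hl a ((hΦ z hz).1 ((hC z hz).1 ha)) X hX (((hΦ z hz).2.2 a ((hC z hz).1 ha)).symm ▸ h)
  have hdel : ∀ z ∈ Z, ∀ a ∈ C z, ∀ a' ∈ C z, a' ≠ a →
      ¬ SInv L p q G M₁ Z (Function.update C z (C z \ {a})) := fun z hz a ha a' ha' hne h => by
    have h1 := hmin _ ⟨fun y hy => by
      rcases eq_or_ne y z with rfl | h'
      · rw [Function.update_self]
        exact ⟨Set.sdiff_subset.trans (hC y hy).1, a', ha', hne⟩
      · rw [Function.update_of_ne h']
        exact hC y hy, h⟩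
    refine absurd h1 (not_le.2 (Finset.sum_lt_sum (fun y _ => ?_) ⟨z, hz, ?_⟩))
    · rcases eq_or_ne y z with rfl | h'
      · rw [Function.update_self]
        exact Set.ncard_le_ncard Set.sdiff_subset (Set.toFinite _)
      · rw [Function.update_of_ne h']
    · rw [Function.update_self]
      exact Set.ncard_lt_ncard ⟨Set.sdiff_subset, fun h' => (h' ha).2 rfl⟩ (Set.toFinite _)
  have hone : ∀ z ∈ Z, ∀ a ∈ C z, ∀ a' ∈ C z, a' = a := fun z hz a ha a' ha' => by
    by_contra hne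
    obtain ⟨X, n, hX, x1, x2, x3, x4⟩ := select_tight hI (hdel z hz a ha a' ha' hne)
    obtain ⟨Y, m, hY, y1, y2, y3, y4⟩ := select_tight hI (hdel z hz a' ha' a ha (Ne.symm hne))
    obtain ⟨c, e, h1, h2, h3⟩ := hX.uncross hL hY
    have i1 := hI _ c h1 fun h => x2 (h ▸ Set.mem_univ z : z ∈ X ∩ Y).1
    have i2 := hI _ e h2 fun h => (h ▸ Set.mem_univ z : z ∈ X ∪ Y).elim x2 y2
    have s1 := dg_submod p q G X Y
    have s2 : insert z (forced p Z C X ∪ forced p Z C Y) ⊆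
        forced p Z C (X ∩ Y) ∪ forced p Z C (X ∪ Y) := by
      rintro y (rfl | ⟨k1, k2, k3⟩ | ⟨k1, k2, k3⟩)
      · refine Or.inr ⟨hz, fun h => h.elim x2 y2, fun b hb => ?_⟩
        by_cases h : b = a
        · exact Or.inr (y3 b ⟨hb, fun h' => hne (h'.symm.trans h)⟩)
        · exact Or.inl (x3 b ⟨hb, h⟩)
      · by_cases h : y ∈ Y
        · exact Or.inl ⟨k1, fun h' => k2 h'.1,
            fun b hb => ⟨k3 b hb, hleg y k1 Y (hY.mem hL) h b hb⟩⟩
        · exact Or.inr ⟨k1, fun h' => h'.elim k2 h, fun b hb => Or.inl (k3 b hb)⟩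
      · by_cases h : y ∈ X
        · exact Or.inl ⟨k1, fun h' => k2 h'.2,
            fun b hb => ⟨hleg y k1 X (hX.mem hL) h b hb, k3 b hb⟩⟩
        · exact Or.inr ⟨k1, fun h' => h'.elim h k2, fun b hb => Or.inr (k3 b hb)⟩
    have s3 : forced p Z C X ∩ forced p Z C Y ⊆
        forced p Z C (X ∩ Y) ∩ forced p Z C (X ∪ Y) := fun y ⟨k, k'⟩ =>
      ⟨⟨k.1, fun h => k.2.1 h.1, fun b hb => ⟨k.2.2 b hb, k'.2.2 b hb⟩⟩,
        k.1, fun h => h.elim k.2.1 k'.2.1, fun b hb => Or.inl (k.2.2 b hb)⟩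
    have s4 := Set.ncard_le_ncard s2 (Set.toFinite _)
    have s5 := Set.ncard_le_ncard s3 (Set.toFinite _)
    rw [Set.ncard_insert_of_notMem (fun h => h.elim x4 y4) (Set.toFinite _)] at s4
    have s6 := Set.ncard_union_add_ncard_inter (forced p Z C X) (forced p Z C Y)
    have s7 := Set.ncard_union_add_ncard_inter (forced p Z C (X ∩ Y)) (forced p Z C (X ∪ Y))
    have s8 := Nat.mul_le_mul_left M₁ h3
    rw [Nat.mul_add, Nat.mul_add] at s8
    omega
  refine ⟨C, fun z hz => ⟨(hC z hz).1, ?_⟩, fun X hX hne hu => ?_⟩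
  · obtain ⟨a, ha⟩ := (hC z hz).2
    exact Set.ncard_eq_one.2 ⟨a, Set.eq_singleton_iff_unique_mem.2 ⟨ha, hone z hz a ha⟩⟩
  · have h1 := hI X 1 (Part.one hX hne) hu
    have hq : ∀ z ∈ Z, ∀ a ∈ C z, q a = z := fun z hz a ha => (hΦ z hz).2.2 a ((hC z hz).1 ha)
    have h2 : ((G ∩ ent q p X) ∩ {a | ∃ z ∈ Z, a ∈ C z}).ncard ≤ (forced p Z C X).ncard := by
      refine Set.ncard_le_ncard_of_injOn q ?_ ?_ (Set.toFinite _)
      · rintro a ⟨ha, z, hz, haz⟩
        rw [hq z hz a haz]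
        exact ⟨hz, hq z hz a haz ▸ ha.2.2, fun b hb => hone z hz a haz b hb ▸ ha.2.1⟩
      · rintro a ⟨-, z, hz, haz⟩ b ⟨-, y, hy, hby⟩ e
        obtain rfl : z = y := (hq z hz a haz).symm.trans (e.trans (hq y hy b hby))
        exact hone z hz b hby a haz
    have h3 := Set.ncard_inter_add_ncard_sdiff_eq_ncard (G ∩ ent q p X)
      {a | ∃ z ∈ Z, a ∈ C z} (Set.toFinite _)
    have h4 : ((G ∩ ent q p X) \ {a | ∃ z ∈ Z, a ∈ C z}).ncard ≤
        dg p q (G \ {a | ∃ z ∈ Z, a ∈ C z}) X :=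
      Set.ncard_le_ncard (fun a ha => ⟨⟨ha.1.1, ha.2⟩, ha.1.2⟩) (Set.toFinite _)
    unfold dg at h1
    omega

theorem select_many [Finite V] [Finite A] {L : Set (Set V)} (hL : IsRing L) {p q : A → V}
    {G : Set A} (hl : Legit L p q G) {M g c K : ℕ} (hG : Cover L p q G M) (hg : 0 < g)
    (hM : M ≤ g * c) (Z : Finset V) (Φ : V → Set A)
    (hΦ : ∀ z ∈ Z, Φ z ⊆ G ∧ (Φ z).ncard = g + K ∧ ∀ a ∈ Φ z, q a = z) (j : ℕ) (hj : j ≤ K) :
    ∃ N ⊆ G, (∀ z ∈ Z, (Φ z ∩ N).ncard = j) ∧ Cover L p q (G \ N) (M - j * c) := by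
  induction j with
  | zero =>
    exact ⟨∅, Set.empty_subset _, fun z _ => by simp, by simpa using hG⟩
  | succ j ih =>
    obtain ⟨N, h1, h2, h3⟩ := ih (by omega)
    obtain ⟨C, k1, k2⟩ := select hL (hl.mono subset_rfl Set.sdiff_subset) h3 hg
      (M₁ := M - (j + 1) * c) (by
        rcases le_total M ((j + 1) * c) with h | h
        · rw [Nat.sub_eq_zero_of_le h, Nat.mul_zero, Nat.zero_add]
          exact Nat.le_mul_of_pos_left _ hg
        · obtain ⟨d, rfl⟩ := Nat.exists_eq_add_of_le h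
          have e1 : (j + 1) * c + d - j * c = d + c := by
            rw [Nat.succ_mul]
            omega
          rw [Nat.add_sub_cancel_left, e1, Nat.mul_add]
          rw [Nat.succ_mul] at hM
          omega) Z (fun z => Φ z \ N) fun z hz => by
        obtain ⟨k1, k2, k3⟩ := hΦ z hz
        have k4 := Set.ncard_inter_add_ncard_sdiff_eq_ncard (Φ z) N (Set.toFinite _)
        have k5 := h2 z hz
        exact ⟨fun a ha => ⟨k1 ha.1, ha.2⟩, by omega, fun a ha => k3 a ha.1⟩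
    refine ⟨N ∪ {a | ∃ z ∈ Z, a ∈ C z}, Set.union_subset h1 ?_, fun z hz => ?_, ?_⟩
    · rintro a ⟨z, hz, ha⟩
      exact (hΦ z hz).1 ((k1 z hz).1 ha).1
    · have e1 : Φ z ∩ (N ∪ {a | ∃ z ∈ Z, a ∈ C z}) = (Φ z ∩ N) ∪ C z := by
        ext a
        constructor
        · rintro ⟨ha, h | ⟨y, hy, h⟩⟩
          · exact Or.inl ⟨ha, h⟩
          · obtain rfl : y = z :=
              ((hΦ y hy).2.2 a ((k1 y hy).1 h).1).symm.trans ((hΦ z hz).2.2 a ha)
            exact Or.inr h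
        · rintro (h | h)
          · exact ⟨h.1, Or.inl h.2⟩
          · exact ⟨((k1 z hz).1 h).1, Or.inr ⟨z, hz, h⟩⟩
      rw [e1, Set.ncard_union_eq (Set.disjoint_left.2 fun a ha hb => ((k1 z hz).1 hb).2 ha.2)
        (Set.toFinite _) (Set.toFinite _), h2 z hz, (k1 z hz).2]
    · rwa [← Set.sdiff_sdiff]

end Pool.Agent.Lib.MP_cbe08d_co.Lg
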