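import Pool.Agent.Lib.MP_cbe08d_co.Lg.Lanes
import Pool.Agent.Lib.MP_cbe08d_co.Lg.Select
import Pool.Agent.Lib.MP_cbe08d_co.Lg.Root

/-!
One round halves the number of cores.
-/

set_option autoImplicit false

namespace Pool.Agent.Lib.MP_cbe08d_co.Lg

variable {V A : Type}

/-- Every proper member of `L` that contains all cores is covered `K` times by `P`. -/
def Pink (L : Set (Set V)) (p q : A → V) (P : Set A) (Z : Finset V) (K : ℕ) : Prop :=
  ∀ X ∈ L, X ≠ Set.univ → (∀ z ∈ Z, z ∈ X) → K ≤ dg p q P X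

lemma Basin.merge {L : Set (Set V)} {z : V} {W X₀ : Set V} (h : Basin L z W) (hX₀ : X₀ ∈ L)
    (hz : z ∈ X₀) (ρ : V) : Basin (mergeL L X₀ ρ) z W :=
  ⟨⟨h.mem, fun _ => (Set.union_comm _ _).trans (h.big X₀ hX₀ hz)⟩, h.not_mem,
    fun X hX => h.big X hX.1⟩

lemma dg_merge [Finite A] (p q : A → V) (P : Set A) {X X₀ : Set V} (h : X ∪ X₀ = Set.univ) :
    dg p q P X ≤ dg p q (P ∩ {a | q a ∈ X₀}) X :=
  dg_le fun a ha h1 h2 =>
    ⟨⟨ha, (h ▸ Set.mem_univ (q a) : q a ∈ X ∪ X₀).resolve_left h2⟩, h1, h2⟩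

lemma dg_split [Finite A] (p q : A → V) (P : Set A) {X X₀ : Set V} (h : X₀ ⊆ X) :
    dg p q P X ≤ dg p q (P ∩ {a | p a ∉ X₀}) X + dg p q P X₀ := by
  refine le_trans (Set.ncard_le_ncard (fun a ha => ?_) (Set.toFinite _)) (Set.ncard_union_le _ _)
  by_cases h1 : p a ∈ X₀
  · exact Or.inr ⟨ha.1, h1, fun h2 => ha.2.2 (h h2)⟩
  · exact Or.inl ⟨⟨ha.1, h1⟩, ha.2⟩

theorem stepA [Finite V] [Finite A] {k K K' : ℕ} (hK : K' + k ≤ K) {p q : A → V} {G : Set A}
    {Z : Finset V} (n : ℕ) : ∀ (L : Set (Set V)) (P : Set A) (W : V → Set V),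
      ∑ z ∈ Z, (W z).ncard < n → IsRing L → Disjoint G P → Cores L Z W → Pink L p q P Z K →
      ∃ (L' : Set (Set V)) (P' : Set A) (W' : V → Set V), L' ⊆ L ∧ IsRing L' ∧ P' ⊆ P ∧
        Cores L' Z W' ∧ Pink L' p q P' Z K ∧
        (∀ z ∈ Z, ∀ X ∈ L', z ∉ X → (∀ y ∈ Z, y ≠ z → y ∈ X) → ¬ W' z ⊆ X →
          K' ≤ dg p q P' X) ∧
        (Solv k L' p q (G ∪ P') → Solv k L p q (G ∪ P)) := by
  classical
  induction n with
  | zero => exact fun _ _ _ h => absurd h (Nat.not_lt_zero _)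
  | succ n ih =>
    intro L P W hn hL hGP hZ hP
    by_cases hQ : ∀ z ∈ Z, ∀ X ∈ L, z ∉ X → (∀ y ∈ Z, y ≠ z → y ∈ X) → ¬ W z ⊆ X →
        K' ≤ dg p q P X
    · exact ⟨L, P, W, subset_rfl, hL, subset_rfl, hZ, hP, hQ, id⟩
    push Not at hQ
    obtain ⟨z, hz, X₀, hX₀, hzX, hy, hW, hs⟩ := hQ
    have hB := hZ.basin z hz
    obtain ⟨L', P', W', h1, h2, h3, h4, h5, h6, h7⟩ := ih (mergeL L X₀ z) (P ∩ {a | q a ∈ X₀})
      (Function.update W z (W z ∩ X₀)) (by
        refine lt_of_lt_of_le (Finset.sum_lt_sum (fun y _ => ?_) ⟨z, hz, ?_⟩)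
          (Nat.le_of_lt_succ hn)
        · rcases eq_or_ne y z with rfl | h
          · rw [Function.update_self]
            exact Set.ncard_le_ncard Set.inter_subset_left (Set.toFinite _)
          · rw [Function.update_of_ne h]
        · rw [Function.update_self]
          exact Set.ncard_lt_ncard ⟨Set.inter_subset_left, fun h => hW fun v hv => (h hv).2⟩
            (Set.toFinite _))
      (hL.mergeL _ _) (hGP.mono_right Set.inter_subset_left)
      ⟨fun y hy' => by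
        rcases eq_or_ne y z with rfl | h
        · rw [Function.update_self]
          refine ⟨⟨hL.inter _ hB.mem _ hX₀, fun h => absurd h.2 hzX⟩, fun h => hzX h.2,
            fun X hX h => ?_⟩
          rw [Set.union_inter_distrib_left, hB.big X hX.1 h, hX.2 h, Set.inter_self]
        · rw [Function.update_of_ne h]
          exact (hZ.basin y hy').merge hX₀ (hy y hy' h) z, fun y hy' y' hy'' hne => by
        rcases eq_or_ne y' z with rfl | h
        · rw [Function.update_self]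
          exact ⟨hZ.sep y hy' _ hy'' hne, hy y hy' hne⟩
        · rw [Function.update_of_ne h]
          exact hZ.sep y hy' _ hy'' hne⟩
      fun X hX hu h => (hP X hX.1 hu h).trans (dg_merge p q P (hX.2 (h z hz)))
    refine ⟨L', P', W', fun X hX => (h1 hX).1, h2, h3.trans Set.inter_subset_left, h4, h5, h6,
      fun hS => merge hL hGP hX₀ (fun X hX hs1 hs2 hu => ?_) (h7 hS)⟩
    have k1 := hP X hX hu fun y hy' => (eq_or_ne y z).elim (fun e => e ▸ hs2)
      fun h => hs1 (hy y hy' h)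
    have k2 := dg_split p q P hs1
    omega

theorem stepD [Finite V] [Finite A] {k K : ℕ} (hK : 2 * k ≤ K) {p q : A → V} {G : Set A}
    (n : ℕ) : ∀ (L : Set (Set V)) (P : Set A) (Zr Zn : Finset V) (W : V → Set V),
      Zr.card < n → IsRing L → Disjoint G P → Cores L Zn W →
      (∀ X ∈ L, X ≠ Set.univ → (∀ z ∈ Zn, z ∈ X) →
        (∀ y ∈ Zr, ∀ y' ∈ Zr, y ∉ X → y' ∉ X → y = y') → K ≤ dg p q P X) →
      ∃ (L' : Set (Set V)) (P' : Set A) (Z' : Finset V) (W' : V → Set V), L' ⊆ L ∧ IsRing L' ∧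
        P' ⊆ P ∧ Cores L' Z' W' ∧ Pink L' p q P' Z' K ∧ 2 * Z'.card ≤ 2 * Zn.card + Zr.card ∧
        (Solv k L' p q (G ∪ P') → Solv k L p q (G ∪ P)) := by
  classical
  induction n with
  | zero => exact fun _ _ _ _ _ h => absurd h (Nat.not_lt_zero _)
  | succ n ih =>
    intro L P Zr Zn W hn hL hGP hZ hP
    by_cases hQ : Pink L p q P Zn K
    · exact ⟨L, P, Zn, W, subset_rfl, hL, subset_rfl, hZ, hQ, by omega, id⟩
    unfold Pink at hQ
    push Not at hQ
    obtain ⟨X₀, ⟨hX₀, hu₀, hZn, hs⟩, hmax⟩ := Set.exists_max_image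
      {X | X ∈ L ∧ X ≠ Set.univ ∧ (∀ z ∈ Zn, z ∈ X) ∧ dg p q P X < K} Set.ncard
      (Set.toFinite _) hQ
    obtain ⟨ρ, hρ, hroot⟩ := root hL hX₀ hu₀ hK hs fun X hX hlt hu => not_lt.1 fun h =>
      absurd (hmax X ⟨hX, hu, fun z hz => hlt.1 (hZn z hz), h⟩)
        (not_le.2 (Set.ncard_lt_ncard hlt (Set.toFinite _)))
    have hρZ : ρ ∉ Zn := fun h => hρ (hZn ρ h)
    have hne : ∀ z ∈ Zn, z ≠ ρ := fun z hz e => hρZ (e ▸ hz)
    have htwo : ¬ ∀ y ∈ Zr, ∀ y' ∈ Zr, y ∉ X₀ → y' ∉ X₀ → y = y' := fun h =>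
      absurd (hP X₀ hX₀ hu₀ hZn h) (not_le.2 hs)
    push Not at htwo
    obtain ⟨y, hy, y', hy', k1, k2, k3⟩ := htwo
    have hc1 : 1 < (Zr.filter fun v => ¬ v ∈ X₀).card :=
      Finset.one_lt_card.2 ⟨y, Finset.mem_filter.2 ⟨hy, k1⟩, y', Finset.mem_filter.2 ⟨hy', k2⟩, k3⟩
    have hc2 := Finset.card_filter_add_card_filter_not (s := Zr) fun v => v ∈ X₀
    obtain ⟨L', P', Z', W', h1, h2, h3, h4, h5, h6, h7⟩ := ih (mergeL L X₀ ρ)
      (P ∩ {a | q a ∈ X₀}) (Zr.filter fun v => v ∈ X₀) (insert ρ Zn) (Function.update W ρ X₀)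
      (by omega) (hL.mergeL _ _) (hGP.mono_right Set.inter_subset_left)
      ⟨fun z hz => by
        rcases Finset.mem_insert.1 hz with rfl | h
        · rw [Function.update_self]
          exact ⟨⟨hX₀, fun h => absurd h hρ⟩, hρ, fun X hX => hX.2⟩
        · rw [Function.update_of_ne (hne z h)]
          exact (hZ.basin z h).merge hX₀ (hZn z h) ρ, fun z hz z' hz' hzz => by
        rcases Finset.mem_insert.1 hz' with rfl | h'
        · rw [Function.update_self]
          exact hZn z ((Finset.mem_insert.1 hz).resolve_left hzz)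
        · rw [Function.update_of_ne (hne z' h')]
          rcases Finset.mem_insert.1 hz with rfl | h
          · exact ((hZ.basin z' h').big X₀ hX₀ (hZn z' h') ▸ Set.mem_univ z :
              z ∈ X₀ ∪ W z').resolve_left hρ
          · exact hZ.sep z h z' h' hzz⟩
      fun X hX hu h h' => by
        have e := hX.2 (h ρ (Finset.mem_insert_self _ _))
        have e' : ∀ v, v ∉ X → v ∈ X₀ := fun v hv =>
          (e ▸ Set.mem_univ v : v ∈ X ∪ X₀).resolve_left hv
        exact (hP X hX.1 hu (fun z hz => h z (Finset.mem_insert_of_mem hz))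
          fun v hv v' hv' a b => h' v (Finset.mem_filter.2 ⟨hv, e' v a⟩) v'
            (Finset.mem_filter.2 ⟨hv', e' v' b⟩) a b).trans (dg_merge p q P e)
    rw [Finset.card_insert_of_notMem hρZ] at h6
    exact ⟨L', P', Z', W', fun X hX => (h1 hX).1, h2, h3.trans Set.inter_subset_left, h4, h5,
      by omega, fun hS => merge hL hGP hX₀ hroot (h7 hS)⟩

theorem base [Finite V] [Finite A] {k : ℕ} (hk : 0 < k) {L : Set (Set V)} (hL : IsRing L)
    {p q : A → V} {G P : Set A} (hGP : Disjoint G P) (hG : Cover L p q G k) {Z : Finset V}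
    (hZ : Z.card ≤ 1) (hP : Pink L p q P Z k) : Solv k L p q (G ∪ P) := by
  rcases Z.eq_empty_or_nonempty with rfl | ⟨z, hz⟩
  · refine ⟨fun _ => 0, fun i _ X _ ⟨v, _⟩ _ => ?_⟩
    have := hP ∅ hL.empty (fun e => (e ▸ Set.mem_univ v : v ∈ (∅ : Set V)))
      fun z h => absurd h (Finset.notMem_empty z)
    rw [dg_empty] at this
    omega
  · refine merge (ρ := z) hL hGP hL.empty (fun X hX _ h hu => ?_) ?_
    · exact (hP X hX hu fun y hy => Finset.card_le_one.1 hZ z hz y hy ▸ h).trans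
        (dg_le fun a ha h1 h2 => ⟨⟨ha, Set.notMem_empty _⟩, h1, h2⟩)
    · obtain ⟨c, hc⟩ := edmonds_nat q p {X | X ∈ L ∧ X.Nonempty ∧ z ∉ X}
        (fun X hX Y hY hne => ⟨⟨hL.inter _ hX.1 _ hY.1, hne, fun h => hX.2.2 h.1⟩,
          hL.union _ hX.1 _ hY.1, hX.2.1.mono Set.subset_union_left,
          fun h => h.elim hX.2.2 hY.2.2⟩) k G
        fun X hX => hG X hX.1 hX.2.1 fun e => hX.2.2 (e ▸ Set.mem_univ z)
      refine ⟨c, fun i hi X hX hne hu => ?_⟩
      obtain ⟨a, ha, h1⟩ := hc i hi X ⟨hX.1, hne, fun h => hu (by simpa using hX.2 h)⟩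
      exact ⟨a, Or.inl ha.1, h1, ha.2⟩

theorem rounds [Finite V] [Finite A] {k g c K₀ : ℕ} (hk : 0 < k) (hg : 0 < g) {p : A → V}
    (l : ℕ) : ∀ (L : Set (Set V)) (q : A → V) (G P : Set A) (Z : Finset V) (W : V → Set V),
      IsRing L → Disjoint G P → Legit L p q G → Cores L Z W → Z.card ≤ 2 ^ l →
      k * (l + 2) ≤ K₀ → 2 * (g + K₀) + l * (g + K₀ + K₀ * c) ≤ g * c →
      Cover L p q G (2 * (g + K₀) + l * (g + K₀ + K₀ * c)) → Pink L p q P Z (k * (l + 2)) →
      Solv k L p q (G ∪ P) := by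
  have hbase : ∀ (l : ℕ) (L : Set (Set V)) (q : A → V) (G P : Set A) (Z : Finset V),
      IsRing L → Disjoint G P → Z.card ≤ 1 → k * (l + 2) ≤ K₀ →
      Cover L p q G (2 * (g + K₀) + l * (g + K₀ + K₀ * c)) → Pink L p q P Z (k * (l + 2)) →
      Solv k L p q (G ∪ P) := fun l L q G P Z hL hGP hZ hK hG hP => by
    have h1 : k ≤ k * (l + 2) := Nat.le_mul_of_pos_right _ (by omega)
    exact base hk hL hGP (hG.mono subset_rfl (by omega)) hZ
      fun X hX hu h => h1.trans (hP X hX hu h)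
  induction l with
  | zero => exact fun L q G P Z W hL hGP _ _ hc hK _ hG hP => hbase 0 L q G P Z hL hGP hc hK hG hP
  | succ l ih =>
    intro L q G P Z W hL hGP hl hZ hc hK hM hG hP
    by_cases h1 : Z.card ≤ 1
    · exact hbase _ L q G P Z hL hGP h1 hK hG hP
    have eK : k * (l + 1 + 2) = k * (l + 2) + k := by ring
    have eM : (l + 1) * (g + K₀ + K₀ * c) = l * (g + K₀ + K₀ * c) + (g + K₀ + K₀ * c) := by ring
    have eC : k * (l + 2) * c ≤ K₀ * c := Nat.mul_le_mul_right c (by omega)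
    obtain ⟨L₁, P₁, W₁, a1, a2, a3, a4, a5, a6, a7⟩ :=
      stepA (k := k) (K' := k * (l + 2)) eK.ge _ L P W (Nat.lt_succ_self _) hL hGP hZ hP
    obtain ⟨q₁, G₁, Φ, b1, b2, -, b4, b5, b6, b7⟩ := lanes k a2 (hl.mono a1 subset_rfl)
      (M := 2 * (g + K₀) + l * (g + K₀ + K₀ * c) + K₀ * c) (n := g + k * (l + 2))
      (hG.mono a1 le_rfl) (by omega) (by omega) Z a4 fun z hz => by
        obtain ⟨y, hy, hne⟩ := Finset.exists_mem_ne (not_le.1 h1) z
        exact ⟨y, a4.sep y hy z hz hne⟩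
    obtain ⟨N, c1, c2, c3⟩ := select_many a2 b5 b7 hg (c := c) (K := k * (l + 2)) (by omega) Z Φ
      (fun z hz => ⟨(b2 z hz).1, (b2 z hz).2.1, fun a ha => ((b2 z hz).2.2 a ha).1⟩) _ le_rfl
    have hGP₁ : Disjoint G P₁ := hGP.mono_right a3
    have hq : ∀ X, dg p q P₁ X ≤ dg p q₁ (P₁ ∪ N) X := fun X => dg_le fun a ha h2 h3 =>
      ⟨Or.inl ha, h2, (b4 a fun h => Set.disjoint_left.1 hGP₁ h ha).symm ▸ h3⟩
    have hd : Disjoint (G₁ \ N) (P₁ ∪ N) := Set.disjoint_left.2 fun a ha h =>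
      h.elim (Set.disjoint_left.1 hGP₁ (b1 ha.1)) ha.2
    obtain ⟨L₂, P₂, Z₂, W₂, d1, d2, d3, d4, d5, d6, d7⟩ := stepD (k := k) (K := k * (l + 2))
      (p := p) (q := q₁) (by nlinarith) _ L₁ (P₁ ∪ N) Z ∅ W (Nat.lt_succ_self _) a2 hd
      ⟨fun z h => absurd h (Finset.notMem_empty z), fun z h => absurd h (Finset.notMem_empty z)⟩
      fun X hX hu _ h => by
        by_cases h2 : ∀ z ∈ Z, z ∈ X
        · exact le_trans (by omega) ((a5 X hX hu h2).trans (hq X))
        · push Not at h2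
          obtain ⟨z, hz, hzX⟩ := h2
          by_cases h3 : W₁ z ⊆ X
          · rw [← c2 z hz]
            exact Set.ncard_le_ncard (fun a ha => ⟨Or.inr ha.2, h3 ((b2 z hz).2.2 a ha.1).2,
              ((b2 z hz).2.2 a ha.1).1.symm ▸ hzX⟩) (Set.toFinite _)
          · exact (a6 z hz X hX hzX
              (fun y hy hne => by_contra fun h4 => hne (h y hy z hz h4 hzX)) h3).trans (hq X)
    refine a7 (b6 P₁ hGP₁.symm ((d7 (ih L₂ q₁ (G₁ \ N) P₂ Z₂ W₂ d2 (hd.mono_right d3)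
      (b5.mono d1 Set.sdiff_subset) d4 ?_ (by omega) (by omega) (c3.mono d1 (by omega))
      d5)).mono ?_))
    · rw [Finset.card_empty, pow_succ] at *
      omega
    · rintro a (ha | ha | ha)
      exacts [Or.inl ha.1, Or.inr ha, Or.inl (c1 ha)]

end Pool.Agent.Lib.MP_cbe08d_co.Lg
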